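import Mathlib

/-!
# Monotone modal logics, syntactically

Formulas in negation normal form, monotone modal logics as sets of formulas, Lyndon interpolation
and Lyndon positivity.
-/

set_option autoImplicit false

namespace Pool.Agent.V11234.MonoLogic

/-- Formulas built from literals and constants using `∧, ∨, ◇, □`. The variables are the natural
numbers. -/
inductive Fml : Type
  | pos : ℕ → Fml
  | neg : ℕ → Fml
  | bot : Fml
  | top : Fml
  | and : Fml → Fml → Fml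
  | or : Fml → Fml → Fml
  | dia : Fml → Fml
  | box : Fml → Fml
  deriving DecidableEq

namespace Fml

/-- Negation, defined by the De Morgan and modal duality laws. -/
def not : Fml → Fml
  | pos p => neg p
  | neg p => pos p
  | bot => top
  | top => bot
  | and φ ψ => or φ.not ψ.not
  | or φ ψ => and φ.not ψ.not
  | dia φ => box φ.not
  | box φ => dia φ.not

/-- Implication. -/
def imp (φ ψ : Fml) : Fml := or φ.not ψ

/-- Equivalence. -/
def iff (φ ψ : Fml) : Fml := and (imp φ ψ) (imp ψ φ)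

theorem not_not (φ : Fml) : φ.not.not = φ := by
  induction φ with
  | pos p => rfl
  | neg p => rfl
  | bot => rfl
  | top => rfl
  | and φ ψ ih1 ih2 => simp only [not, ih1, ih2]
  | or φ ψ ih1 ih2 => simp only [not, ih1, ih2]
  | dia φ ih => simp only [not, ih]
  | box φ ih => simp only [not, ih]

/-- Replacement of the positive literals `p` by `s p` and of the negative literals `¬ p` by
`t p`. -/
def lsub (s t : ℕ → Fml) : Fml → Fml
  | pos p => s p
  | neg p => t p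
  | bot => bot
  | top => top
  | and φ ψ => and (lsub s t φ) (lsub s t ψ)
  | or φ ψ => or (lsub s t φ) (lsub s t ψ)
  | dia φ => dia (lsub s t φ)
  | box φ => box (lsub s t φ)

/-- Uniform substitution of the formulas `σ p` for the variables `p`. -/
def subst (σ : ℕ → Fml) (φ : Fml) : Fml := lsub σ (fun p => (σ p).not) φ

/-- The set of literals occurring in a formula; `(p, true)` stands for `p` and `(p, false)` for
`¬ p`. -/
def lits : Fml → Set (ℕ × Bool)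
  | pos p => {(p, true)}
  | neg p => {(p, false)}
  | bot => ∅
  | top => ∅
  | and φ ψ => lits φ ∪ lits ψ
  | or φ ψ => lits φ ∪ lits ψ
  | dia φ => lits φ
  | box φ => lits φ

/-- The set of variables occurring in a formula. -/
def vars (φ : Fml) : Set ℕ := {p | ∃ b, (p, b) ∈ lits φ}

/-- A formula is positive if it contains no negated variable. -/
def Positive (φ : Fml) : Prop := ∀ p, (p, false) ∉ lits φ

end Fml

open Fml

/-- A classical (Boolean) valuation of formulas: it respects the Boolean connectives and the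
duality of `◇` and `□`, and treats the formulas `◇ φ` as atoms. -/
structure IsBool (v : Fml → Prop) : Prop where
  neg : ∀ p, v (neg p) ↔ ¬ v (pos p)
  bot : ¬ v bot
  top : v top
  and : ∀ φ ψ, v (and φ ψ) ↔ v φ ∧ v ψ
  or : ∀ φ ψ, v (or φ ψ) ↔ v φ ∨ v ψ
  box : ∀ φ, v (box φ) ↔ ¬ v (dia φ.not)

/-- Classical tautologies. -/
def Taut (φ : Fml) : Prop := ∀ v, IsBool v → v φ

/-- Monotone modal logics. -/
structure IsMonotoneLogic (Λ : Set Fml) : Prop where
  taut : ∀ φ, Taut φ → φ ∈ Λ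
  dual : iff (box (pos 0)) (dia (neg 0)).not ∈ Λ
  mono : imp (dia (pos 0)) (dia (or (pos 0) (pos 1))) ∈ Λ
  mp : ∀ φ ψ, φ ∈ Λ → imp φ ψ ∈ Λ → ψ ∈ Λ
  subst : ∀ φ σ, φ ∈ Λ → φ.subst σ ∈ Λ
  re : ∀ φ ψ, iff φ ψ ∈ Λ → iff (dia φ) (dia ψ) ∈ Λ

/-- Lyndon interpolation property. -/
def LIP (Λ : Set Fml) : Prop :=
  ∀ φ ψ, imp φ ψ ∈ Λ → ∃ θ, lits θ ⊆ lits φ ∩ lits ψ ∧ imp φ θ ∈ Λ ∧ imp θ ψ ∈ Λ

/-- The formula `φ` is monotone in `Λ`: `φ(p) → φ(p ∨ q) ∈ Λ` for some tuple `q` of pairwise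
distinct fresh variables. -/
def MonotoneIn (Λ : Set Fml) (φ : Fml) : Prop :=
  ∃ q : ℕ → ℕ, Set.InjOn q (vars φ) ∧ (∀ i ∈ vars φ, q i ∉ vars φ) ∧
    imp φ (φ.subst fun i => or (pos i) (pos (q i))) ∈ Λ

/-- Lyndon positivity property. -/
def LPP (Λ : Set Fml) : Prop :=
  ∀ φ, MonotoneIn Λ φ → ∃ ψ, Positive ψ ∧ iff φ ψ ∈ Λ

theorem bool_not {v : Fml → Prop} (hv : IsBool v) (φ : Fml) : v φ.not ↔ ¬ v φ := by
  induction φ with
  | pos p => exact hv.neg p
  | neg p => simp only [Fml.not, hv.neg p, Classical.not_not]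
  | bot => simp [Fml.not, hv.top, hv.bot]
  | top => simp [Fml.not, hv.top, hv.bot]
  | and φ ψ ih1 ih2 =>
    simp only [Fml.not, hv.and, hv.or, ih1, ih2]
    tauto
  | or φ ψ ih1 ih2 =>
    simp only [Fml.not, hv.and, hv.or, ih1, ih2]
    tauto
  | dia φ ih => simp only [Fml.not, hv.box, Fml.not_not]
  | box φ ih =>
    simp only [Fml.not, hv.box]
    exact (Classical.not_not).symm

theorem bool_imp {v : Fml → Prop} (hv : IsBool v) (φ ψ : Fml) : v (imp φ ψ) ↔ (v φ → v ψ) := by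
  simp only [imp, hv.or, bool_not hv]
  tauto

theorem bool_iff {v : Fml → Prop} (hv : IsBool v) (φ ψ : Fml) : v (iff φ ψ) ↔ (v φ ↔ v ψ) := by
  simp only [iff, hv.and, bool_imp hv]
  tauto

section

variable {Λ : Set Fml} (hΛ : IsMonotoneLogic Λ)

include hΛ

theorem trans {φ ψ χ : Fml} (h1 : imp φ ψ ∈ Λ) (h2 : imp ψ χ ∈ Λ) : imp φ χ ∈ Λ := by
  have h3 : imp (imp φ ψ) (imp (imp ψ χ) (imp φ χ)) ∈ Λ := by
    apply hΛ.taut
    intro v hv
    simp only [bool_imp hv]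
    tauto
  exact hΛ.mp _ _ h2 (hΛ.mp _ _ h1 h3)

theorem iff_of {φ ψ : Fml} (h1 : imp φ ψ ∈ Λ) (h2 : imp ψ φ ∈ Λ) : iff φ ψ ∈ Λ := by
  have h3 : imp (imp φ ψ) (imp (imp ψ φ) (iff φ ψ)) ∈ Λ := by
    apply hΛ.taut
    intro v hv
    simp only [bool_imp hv, bool_iff hv]
    tauto
  exact hΛ.mp _ _ h2 (hΛ.mp _ _ h1 h3)

theorem imp_of_iff {φ ψ : Fml} (h1 : iff φ ψ ∈ Λ) : imp φ ψ ∈ Λ := by
  have h3 : imp (iff φ ψ) (imp φ ψ) ∈ Λ := by
    apply hΛ.taut
    intro v hv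
    simp only [bool_imp hv, bool_iff hv]
    tauto
  exact hΛ.mp _ _ h1 h3

theorem imp_of_iff' {φ ψ : Fml} (h1 : iff φ ψ ∈ Λ) : imp ψ φ ∈ Λ := by
  have h3 : imp (iff φ ψ) (imp ψ φ) ∈ Λ := by
    apply hΛ.taut
    intro v hv
    simp only [bool_imp hv, bool_iff hv]
    tauto
  exact hΛ.mp _ _ h1 h3

theorem contra {φ ψ : Fml} (h1 : imp φ ψ ∈ Λ) : imp ψ.not φ.not ∈ Λ := by
  have h3 : imp (imp φ ψ) (imp ψ.not φ.not) ∈ Λ := by
    apply hΛ.taut
    intro v hv
    simp only [bool_imp hv, bool_not hv]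
    tauto
  exact hΛ.mp _ _ h1 h3

theorem dia_mono {φ ψ : Fml} (h : imp φ ψ ∈ Λ) : imp (dia φ) (dia ψ) ∈ Λ := by
  have h1 : imp (dia φ) (dia (or φ ψ)) ∈ Λ :=
    hΛ.subst _ (fun i => if i = 0 then φ else ψ) hΛ.mono
  have h2 : iff (or φ ψ) ψ ∈ Λ := by
    have h3 : imp (imp φ ψ) (iff (or φ ψ) ψ) ∈ Λ := by
      apply hΛ.taut
      intro v hv
      simp only [bool_imp hv, bool_iff hv, hv.or]
      tauto
    exact hΛ.mp _ _ h h3
  exact trans hΛ h1 (imp_of_iff hΛ (hΛ.re _ _ h2))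

theorem box_mono {φ ψ : Fml} (h : imp φ ψ ∈ Λ) : imp (box φ) (box ψ) ∈ Λ := by
  have h1 := contra hΛ (dia_mono hΛ (contra hΛ h))
  simp only [Fml.not, Fml.not_not] at h1
  exact h1

theorem and_mono {φ ψ φ' ψ' : Fml} (h : imp φ φ' ∈ Λ) (h' : imp ψ ψ' ∈ Λ) :
    imp (and φ ψ) (and φ' ψ') ∈ Λ := by
  have h3 : imp (imp φ φ') (imp (imp ψ ψ') (imp (and φ ψ) (and φ' ψ'))) ∈ Λ := by
    apply hΛ.taut
    intro v hv
    simp only [bool_imp hv, hv.and]
    tauto
  exact hΛ.mp _ _ h' (hΛ.mp _ _ h h3)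

theorem or_mono {φ ψ φ' ψ' : Fml} (h : imp φ φ' ∈ Λ) (h' : imp ψ ψ' ∈ Λ) :
    imp (or φ ψ) (or φ' ψ') ∈ Λ := by
  have h3 : imp (imp φ φ') (imp (imp ψ ψ') (imp (or φ ψ) (or φ' ψ'))) ∈ Λ := by
    apply hΛ.taut
    intro v hv
    simp only [bool_imp hv, hv.or]
    tauto
  exact hΛ.mp _ _ h' (hΛ.mp _ _ h h3)

theorem imp_refl (φ : Fml) : imp φ φ ∈ Λ := by
  apply hΛ.taut
  intro v hv
  simp only [bool_imp hv]
  tauto

/-- Replacing literals by weaker formulas weakens the formula. -/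
theorem lsub_mono {s t s' t' : ℕ → Fml} (φ : Fml) (h1 : ∀ p, (p, true) ∈ lits φ →
    imp (s p) (s' p) ∈ Λ) (h2 : ∀ p, (p, false) ∈ lits φ → imp (t p) (t' p) ∈ Λ) :
    imp (lsub s t φ) (lsub s' t' φ) ∈ Λ := by
  induction φ with
  | pos p => exact h1 p rfl
  | neg p => exact h2 p rfl
  | bot => exact imp_refl hΛ _
  | top => exact imp_refl hΛ _
  | and φ ψ ih1 ih2 =>
    exact and_mono hΛ (ih1 (fun p hp => h1 p (Or.inl hp)) (fun p hp => h2 p (Or.inl hp)))
      (ih2 (fun p hp => h1 p (Or.inr hp)) (fun p hp => h2 p (Or.inr hp)))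
  | or φ ψ ih1 ih2 =>
    exact or_mono hΛ (ih1 (fun p hp => h1 p (Or.inl hp)) (fun p hp => h2 p (Or.inl hp)))
      (ih2 (fun p hp => h1 p (Or.inr hp)) (fun p hp => h2 p (Or.inr hp)))
  | dia φ ih => exact dia_mono hΛ (ih h1 h2)
  | box φ ih => exact box_mono hΛ (ih h1 h2)

end

theorem lsub_id (φ : Fml) : lsub pos neg φ = φ := by
  induction φ with
  | pos p => rfl
  | neg p => rfl
  | bot => rfl
  | top => rfl
  | and φ ψ ih1 ih2 => simp only [lsub, ih1, ih2]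
  | or φ ψ ih1 ih2 => simp only [lsub, ih1, ih2]
  | dia φ ih => simp only [lsub, ih]
  | box φ ih => simp only [lsub, ih]

theorem lsub_not (s t : ℕ → Fml) (φ : Fml) (h : ∀ p, (p, true) ∈ lits φ ∨ (p, false) ∈ lits φ →
    (s p).not = t p) : (lsub s t φ).not = lsub s t φ.not := by
  induction φ with
  | pos p => exact h p (Or.inl rfl)
  | neg p =>
    simp only [lsub, Fml.not]
    rw [← h p (Or.inr rfl), Fml.not_not]
  | bot => rfl
  | top => rfl
  | and φ ψ ih1 ih2 =>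
    simp only [lsub, Fml.not]
    rw [ih1 fun p hp => h p (hp.imp Or.inl Or.inl), ih2 fun p hp => h p (hp.imp Or.inr Or.inr)]
  | or φ ψ ih1 ih2 =>
    simp only [lsub, Fml.not]
    rw [ih1 fun p hp => h p (hp.imp Or.inl Or.inl), ih2 fun p hp => h p (hp.imp Or.inr Or.inr)]
  | dia φ ih =>
    simp only [lsub, Fml.not]
    rw [ih h]
  | box φ ih =>
    simp only [lsub, Fml.not]
    rw [ih h]

theorem subst_not (σ : ℕ → Fml) (φ : Fml) : φ.not.subst σ = (φ.subst σ).not :=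
  (lsub_not _ _ _ fun _ _ => rfl).symm

theorem subst_imp (σ : ℕ → Fml) (φ ψ : Fml) :
    (imp φ ψ).subst σ = imp (φ.subst σ) (ψ.subst σ) := by
  have := subst_not σ φ
  simp only [imp, Fml.subst, lsub] at this ⊢
  rw [this]

/-- Composition: a uniform substitution after a replacement of literals. -/
theorem subst_lsub (σ s t : ℕ → Fml) (φ : Fml) :
    (lsub s t φ).subst σ = lsub (fun p => (s p).subst σ) (fun p => (t p).subst σ) φ := by
  induction φ with
  | pos p => rfl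
  | neg p => rfl
  | bot => rfl
  | top => rfl
  | and φ ψ ih1 ih2 =>
    simp only [Fml.subst, lsub] at ih1 ih2 ⊢
    rw [ih1, ih2]
  | or φ ψ ih1 ih2 =>
    simp only [Fml.subst, lsub] at ih1 ih2 ⊢
    rw [ih1, ih2]
  | dia φ ih =>
    simp only [Fml.subst, lsub] at ih ⊢
    rw [ih]
  | box φ ih =>
    simp only [Fml.subst, lsub] at ih ⊢
    rw [ih]

theorem lsub_congr {s t s' t' : ℕ → Fml} (φ : Fml)
    (h : ∀ p ∈ vars φ, s p = s' p ∧ t p = t' p) : lsub s t φ = lsub s' t' φ := by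
  induction φ with
  | pos p => exact (h p ⟨true, rfl⟩).1
  | neg p => exact (h p ⟨false, rfl⟩).2
  | bot => rfl
  | top => rfl
  | and φ ψ ih1 ih2 =>
    simp only [lsub]
    rw [ih1 fun p ⟨b, hp⟩ => h p ⟨b, Or.inl hp⟩, ih2 fun p ⟨b, hp⟩ => h p ⟨b, Or.inr hp⟩]
  | or φ ψ ih1 ih2 =>
    simp only [lsub]
    rw [ih1 fun p ⟨b, hp⟩ => h p ⟨b, Or.inl hp⟩, ih2 fun p ⟨b, hp⟩ => h p ⟨b, Or.inr hp⟩]
  | dia φ ih =>
    simp only [lsub]
    rw [ih h]
  | box φ ih =>
    simp only [lsub]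
    rw [ih h]

theorem lits_lsub (s t : ℕ → Fml) (φ : Fml) {l : ℕ × Bool} (h : l ∈ lits (lsub s t φ)) :
    ∃ p, ((p, true) ∈ lits φ ∧ l ∈ lits (s p)) ∨ ((p, false) ∈ lits φ ∧ l ∈ lits (t p)) := by
  induction φ with
  | pos p => exact ⟨p, Or.inl ⟨rfl, h⟩⟩
  | neg p => exact ⟨p, Or.inr ⟨rfl, h⟩⟩
  | bot => exact h.elim
  | top => exact h.elim
  | and φ ψ ih1 ih2 =>
    rcases h with h | h
    · obtain ⟨p, h | h⟩ := ih1 h
      · exact ⟨p, Or.inl ⟨Or.inl h.1, h.2⟩⟩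
      · exact ⟨p, Or.inr ⟨Or.inl h.1, h.2⟩⟩
    · obtain ⟨p, h | h⟩ := ih2 h
      · exact ⟨p, Or.inl ⟨Or.inr h.1, h.2⟩⟩
      · exact ⟨p, Or.inr ⟨Or.inr h.1, h.2⟩⟩
  | or φ ψ ih1 ih2 =>
    rcases h with h | h
    · obtain ⟨p, h | h⟩ := ih1 h
      · exact ⟨p, Or.inl ⟨Or.inl h.1, h.2⟩⟩
      · exact ⟨p, Or.inr ⟨Or.inl h.1, h.2⟩⟩
    · obtain ⟨p, h | h⟩ := ih2 h
      · exact ⟨p, Or.inl ⟨Or.inr h.1, h.2⟩⟩
      · exact ⟨p, Or.inr ⟨Or.inr h.1, h.2⟩⟩
  | dia φ ih => exact ih h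
  | box φ ih => exact ih h

/-- If `φ` is monotone in `Λ` then `φ(A) → φ(A ∨ B) ∈ Λ` for all formulas `A`, `B`. -/
theorem mono_all {Λ : Set Fml} (hΛ : IsMonotoneLogic Λ) {φ : Fml} (h : MonotoneIn Λ φ)
    (A B : ℕ → Fml) : imp (φ.subst A) (φ.subst fun i => or (A i) (B i)) ∈ Λ := by
  classical
  obtain ⟨q, hq1, hq2, hq3⟩ := h
  let σ : ℕ → Fml := fun j => if j ∈ vars φ then A j else
    if h : ∃ i ∈ vars φ, q i = j then B h.choose else bot
  have hσ1 : ∀ i ∈ vars φ, σ i = A i := fun i hi => if_pos hi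
  have hσ2 : ∀ i ∈ vars φ, σ (q i) = B i := by
    intro i hi
    have h1 : ∃ i' ∈ vars φ, q i' = q i := ⟨i, hi, rfl⟩
    simp only [σ, if_neg (hq2 i hi), dif_pos h1]
    rw [hq1 h1.choose_spec.1 hi h1.choose_spec.2]
  have h1 := hΛ.subst _ σ hq3
  rw [subst_imp] at h1
  have h2 : φ.subst σ = φ.subst A := lsub_congr φ fun p hp => by
    rw [hσ1 p hp]
    exact ⟨rfl, rfl⟩
  have h3 : (φ.subst fun i => or (pos i) (pos (q i))).subst σ =
      φ.subst fun i => or (A i) (B i) := by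
    unfold Fml.subst
    have := subst_lsub σ (fun i => or (pos i) (pos (q i)))
      (fun i => (or (pos i) (pos (q i))).not) φ
    unfold Fml.subst at this
    rw [this]
    refine lsub_congr φ fun p hp => ?_
    simp only [lsub, Fml.not, hσ1 p hp, hσ2 p hp, and_self]
  rw [h2, h3] at h1
  exact h1

/-- Lyndon interpolation implies Lyndon positivity. -/
theorem lpp_of_lip {Λ : Set Fml} (hΛ : IsMonotoneLogic Λ) (h : LIP Λ) : LPP Λ := by
  intro φ hφ
  let s₁ : ℕ → Fml := fun i => and (pos (3 * i + 1)) (pos (3 * i))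
  let t₁ : ℕ → Fml := fun i => neg (3 * i + 1)
  let s₂ : ℕ → Fml := fun i => or (pos (3 * i + 2)) (pos (3 * i))
  let t₂ : ℕ → Fml := fun i => neg (3 * i + 2)
  have h1 : imp (lsub s₁ t₁ φ) (φ.subst s₁) ∈ Λ := by
    refine lsub_mono hΛ φ (fun p _ => imp_refl hΛ _) (fun p _ => ?_)
    apply hΛ.taut
    intro v hv
    simp only [bool_imp hv, s₁, t₁, Fml.not, hv.or, hv.neg]
    tauto
  have h2 : imp (φ.subst s₁) (φ.subst fun i => or (s₁ i) (s₂ i)) ∈ Λ := mono_all hΛ hφ _ _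
  have h3 : imp (φ.subst fun i => or (s₁ i) (s₂ i)) (lsub s₂ t₂ φ) ∈ Λ := by
    refine lsub_mono hΛ φ (fun p _ => ?_) (fun p _ => ?_)
    · apply hΛ.taut
      intro v hv
      simp only [bool_imp hv, s₁, s₂, hv.or, hv.and]
      tauto
    · apply hΛ.taut
      intro v hv
      simp only [bool_imp hv, s₁, s₂, t₂, Fml.not, hv.or, hv.and, hv.neg]
      tauto
  obtain ⟨θ, hθ, h4, h5⟩ := h _ _ (trans hΛ h1 (trans hΛ h2 h3))
  have hpos : ∀ l ∈ lits θ, ∃ i, l = (3 * i, true) := by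
    intro l hl
    obtain ⟨hl1, hl2⟩ := hθ hl
    obtain ⟨p, hp⟩ := lits_lsub _ _ _ hl1
    obtain ⟨p', hp'⟩ := lits_lsub _ _ _ hl2
    simp only [s₁, t₁, s₂, t₂, lits, Set.mem_union, Set.mem_singleton_iff] at hp hp'
    rcases hp with ⟨-, rfl | rfl⟩ | ⟨-, rfl⟩
    · rcases hp' with ⟨-, hp' | hp'⟩ | ⟨-, hp'⟩
      · simp only [Prod.mk.injEq, and_true] at hp'
        omega
      · simp only [Prod.mk.injEq, and_true] at hp'
        omega
      · simp at hp'
    · exact ⟨p, rfl⟩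
    · rcases hp' with ⟨-, hp' | hp'⟩ | ⟨-, hp'⟩
      · simp at hp'
      · simp at hp'
      · simp only [Prod.mk.injEq, and_true] at hp'
        omega
  let σ : ℕ → Fml := fun j => pos (j / 3)
  refine ⟨θ.subst σ, ?_, ?_⟩
  · intro p hp
    obtain ⟨q, hq | hq⟩ := lits_lsub _ _ _ hp
    · simp [σ, lits] at hq
    · obtain ⟨i, hi⟩ := hpos _ hq.1
      simp at hi
  · have e0 : ∀ i, 3 * i / 3 = i := fun i => by omega
    have e1 : ∀ i, (3 * i + 1) / 3 = i := fun i => by omega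
    have e2 : ∀ i, (3 * i + 2) / 3 = i := fun i => by omega
    have h4' := hΛ.subst _ σ h4
    have h5' := hΛ.subst _ σ h5
    rw [subst_imp, subst_lsub] at h4' h5'
    apply iff_of hΛ
    · refine trans hΛ ?_ h4'
      have := lsub_mono hΛ (s := pos) (t := neg) (s' := fun p => (s₁ p).subst σ)
        (t' := fun p => (t₁ p).subst σ) φ (fun p _ => ?_) (fun p _ => ?_)
      · rwa [lsub_id] at this
      · apply hΛ.taut
        intro v hv
        simp only [bool_imp hv, s₁, σ, Fml.subst, lsub, hv.and, e0, e1]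
        tauto
      · apply hΛ.taut
        intro v hv
        simp only [bool_imp hv, t₁, σ, Fml.subst, lsub, Fml.not, e1]
        tauto
    · refine trans hΛ h5' ?_
      have := lsub_mono hΛ (s' := pos) (t' := neg) (s := fun p => (s₂ p).subst σ)
        (t := fun p => (t₂ p).subst σ) φ (fun p _ => ?_) (fun p _ => ?_)
      · rwa [lsub_id] at this
      · apply hΛ.taut
        intro v hv
        simp only [bool_imp hv, s₂, σ, Fml.subst, lsub, hv.or, e0, e2]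
        tauto
      · apply hΛ.taut
        intro v hv
        simp only [bool_imp hv, t₂, σ, Fml.subst, lsub, Fml.not, e2]
        tauto

end Pool.Agent.V11234.MonoLogic
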