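import Mathlib

/-!
# Monotone modal logic over neighborhood frames: formulas in negation normal form, bisimulations,
and the finite Hennessy–Milner argument for directed bisimulations.
-/

set_option autoImplicit false

namespace Pool.Agent.V11234.MonoModal

/-- Formulas built from literals and constants using `∧, ∨, ◇, □`. -/
inductive Fml (V : Type) : Type
  | pos : V → Fml V
  | neg : V → Fml V
  | bot : Fml V
  | top : Fml V
  | and : Fml V → Fml V → Fml V
  | or : Fml V → Fml V → Fml V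
  | dia : Fml V → Fml V
  | box : Fml V → Fml V

/-- A neighborhood frame on the set `W`. -/
structure Frame (W : Type) where
  /-- the operator `◇` on sets of points -/
  dia : Set W → Set W
  mono : ∀ X Y, X ⊆ Y → dia X ⊆ dia Y

/-- The dual operator. -/
def Frame.box {W : Type} (F : Frame W) (X : Set W) : Set W := (F.dia Xᶜ)ᶜ

/-- The truth set of a formula under the valuation `θ`. -/
def eval {V W : Type} (F : Frame W) (θ : V → Set W) : Fml V → Set W
  | .pos p => θ p
  | .neg p => (θ p)ᶜ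
  | .bot => ∅
  | .top => Set.univ
  | .and φ ψ => eval F θ φ ∩ eval F θ ψ
  | .or φ ψ => eval F θ φ ∪ eval F θ ψ
  | .dia φ => F.dia (eval F θ φ)
  | .box φ => F.box (eval F θ φ)

/-- No literal `¬ p` with `p ∈ S` occurs in the formula. -/
def Positive {V : Type} (S : Set V) : Fml V → Prop
  | .pos _ => True
  | .neg p => p ∉ S
  | .bot => True
  | .top => True
  | .and φ ψ => Positive S φ ∧ Positive S ψ
  | .or φ ψ => Positive S φ ∧ Positive S ψ
  | .dia φ => Positive S φ
  | .box φ => Positive S φ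

section

variable {V W₁ W₂ : Type}

/-- `Z(X)`. -/
def img (Z : W₁ → W₂ → Prop) (X : Set W₁) : Set W₂ := {y | ∃ x ∈ X, Z x y}

/-- `Z⁻¹(X)`. -/
def pre (Z : W₁ → W₂ → Prop) (X : Set W₂) : Set W₁ := {x | ∃ y ∈ X, Z x y}

/-- Bisimulations between neighborhood frames. -/
def IsBisim (F₁ : Frame W₁) (F₂ : Frame W₂) (Z : W₁ → W₂ → Prop) : Prop :=
  (∀ X, img Z (F₁.dia X) ⊆ F₂.dia (img Z X)) ∧ (∀ X, pre Z (F₂.dia X) ⊆ F₁.dia (pre Z X))

/-- The literal condition: all literals except the `¬ p` with `p ∈ S` are preserved. -/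
def Directed (S : Set V) (θ₁ : V → Set W₁) (θ₂ : V → Set W₂) (Z : W₁ → W₂ → Prop) : Prop :=
  (∀ p, img Z (θ₁ p) ⊆ θ₂ p) ∧ (∀ p, p ∉ S → img Z (θ₁ p)ᶜ ⊆ (θ₂ p)ᶜ)

/-- `Z` preserves the formula `φ`. -/
def Preserves (F₁ : Frame W₁) (F₂ : Frame W₂) (θ₁ : V → Set W₁) (θ₂ : V → Set W₂)
    (Z : W₁ → W₂ → Prop) (φ : Fml V) : Prop :=
  img Z (eval F₁ θ₁ φ) ⊆ eval F₂ θ₂ φ

/-- Directed bisimulations preserve positive formulas. -/
theorem preserves_positive {S : Set V} {F₁ : Frame W₁} {F₂ : Frame W₂} {θ₁ : V → Set W₁}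
    {θ₂ : V → Set W₂} {Z : W₁ → W₂ → Prop} (hZ : IsBisim F₁ F₂ Z) (hd : Directed S θ₁ θ₂ Z)
    (φ : Fml V) (hφ : Positive S φ) : Preserves F₁ F₂ θ₁ θ₂ Z φ := by
  induction φ with
  | pos p => exact hd.1 p
  | neg p => exact hd.2 p hφ
  | bot =>
    rintro y ⟨x, hx, -⟩
    exact hx.elim
  | top => exact fun y _ => Set.mem_univ y
  | and φ ψ ih1 ih2 =>
    rintro y ⟨x, hx, hz⟩
    exact ⟨ih1 hφ.1 ⟨x, hx.1, hz⟩, ih2 hφ.2 ⟨x, hx.2, hz⟩⟩
  | or φ ψ ih1 ih2 =>
    rintro y ⟨x, hx | hx, hz⟩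
    · exact Or.inl (ih1 hφ.1 ⟨x, hx, hz⟩)
    · exact Or.inr (ih2 hφ.2 ⟨x, hx, hz⟩)
  | dia φ ih =>
    intro y hy
    exact F₂.mono _ _ (ih hφ) (hZ.1 _ hy)
  | box φ ih =>
    rintro y ⟨x, hx, hz⟩ hy
    apply hx
    refine F₁.mono _ _ ?_ (hZ.2 _ ⟨y, hy, hz⟩)
    rintro x' ⟨y', hy', hz'⟩ hx'
    exact hy' (ih hφ ⟨x', hx', hz'⟩)

/-- Finite conjunctions. -/
def bigAnd : List (Fml V) → Fml V
  | [] => .top
  | φ :: l => .and φ (bigAnd l)

/-- Finite disjunctions. -/
def bigOr : List (Fml V) → Fml V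
  | [] => .bot
  | φ :: l => .or φ (bigOr l)

theorem mem_bigAnd {W : Type} {F : Frame W} {θ : V → Set W} {w : W} (l : List (Fml V)) :
    w ∈ eval F θ (bigAnd l) ↔ ∀ φ ∈ l, w ∈ eval F θ φ := by
  induction l with
  | nil => simp [bigAnd, eval]
  | cons φ l ih => simp [bigAnd, eval, ih]

theorem mem_bigOr {W : Type} {F : Frame W} {θ : V → Set W} {w : W} (l : List (Fml V)) :
    w ∈ eval F θ (bigOr l) ↔ ∃ φ ∈ l, w ∈ eval F θ φ := by
  induction l with
  | nil => simp [bigOr, eval]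
  | cons φ l ih => simp [bigOr, eval, ih]

theorem positive_bigAnd {S : Set V} {l : List (Fml V)} (h : ∀ φ ∈ l, Positive S φ) :
    Positive S (bigAnd l) := by
  induction l with
  | nil => trivial
  | cons φ l ih => exact ⟨h φ (by simp), ih fun ψ hψ => h ψ (by simp [hψ])⟩

theorem positive_bigOr {S : Set V} {l : List (Fml V)} (h : ∀ φ ∈ l, Positive S φ) :
    Positive S (bigOr l) := by
  induction l with
  | nil => trivial
  | cons φ l ih => exact ⟨h φ (by simp), ih fun ψ hψ => h ψ (by simp [hψ])⟩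

/-- Conjunction over a finite type. -/
noncomputable def iAnd {ι : Type} [Fintype ι] (f : ι → Fml V) : Fml V :=
  bigAnd (Finset.univ.toList.map f)

/-- Disjunction over a finite type. -/
noncomputable def iOr {ι : Type} [Fintype ι] (f : ι → Fml V) : Fml V :=
  bigOr (Finset.univ.toList.map f)

theorem mem_iAnd {W ι : Type} [Fintype ι] {F : Frame W} {θ : V → Set W} {w : W}
    (f : ι → Fml V) : w ∈ eval F θ (iAnd f) ↔ ∀ i, w ∈ eval F θ (f i) := by
  simp [iAnd, mem_bigAnd]

theorem mem_iOr {W ι : Type} [Fintype ι] {F : Frame W} {θ : V → Set W} {w : W}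
    (f : ι → Fml V) : w ∈ eval F θ (iOr f) ↔ ∃ i, w ∈ eval F θ (f i) := by
  simp [iOr, mem_bigOr]

theorem positive_iAnd {S : Set V} {ι : Type} [Fintype ι] {f : ι → Fml V}
    (h : ∀ i, Positive S (f i)) : Positive S (iAnd f) := by
  apply positive_bigAnd
  simpa using h

theorem positive_iOr {S : Set V} {ι : Type} [Fintype ι] {f : ι → Fml V}
    (h : ∀ i, Positive S (f i)) : Positive S (iOr f) := by
  apply positive_bigOr
  simpa using h

/-- Inclusion of positive theories. -/
def Sim (S : Set V) (F₁ : Frame W₁) (F₂ : Frame W₂) (θ₁ : V → Set W₁) (θ₂ : V → Set W₂)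
    (x : W₁) (y : W₂) : Prop :=
  ∀ ψ, Positive S ψ → x ∈ eval F₁ θ₁ ψ → y ∈ eval F₂ θ₂ ψ

/-- Hennessy–Milner: between finite models, inclusion of the positive theories is a directed
bisimulation. -/
theorem sim_bisim [Finite W₁] [Finite W₂] (S : Set V) (F₁ : Frame W₁) (F₂ : Frame W₂)
    (θ₁ : V → Set W₁) (θ₂ : V → Set W₂) :
    IsBisim F₁ F₂ (Sim S F₁ F₂ θ₁ θ₂) ∧ Directed S θ₁ θ₂ (Sim S F₁ F₂ θ₁ θ₂) := by
  classical
  let _ := Fintype.ofFinite W₁
  let _ := Fintype.ofFinite W₂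
  have hψ : ∀ x y, ∃ ψ, Positive S ψ ∧ (¬ Sim S F₁ F₂ θ₁ θ₂ x y →
      x ∈ eval F₁ θ₁ ψ ∧ y ∉ eval F₂ θ₂ ψ) := by
    intro x y
    by_cases h : Sim S F₁ F₂ θ₁ θ₂ x y
    · exact ⟨.top, trivial, fun h' => absurd h h'⟩
    · have h' := h
      unfold Sim at h'
      push Not at h'
      obtain ⟨ψ, h1, h2, h3⟩ := h'
      exact ⟨ψ, h1, fun _ => ⟨h2, h3⟩⟩
  choose ψ hψ1 hψ2 using hψ
  refine ⟨⟨?_, ?_⟩, ?_, ?_⟩
  · rintro X w₂ ⟨w₁, hw₁, hz⟩
    let χ : W₁ → Fml V := fun x => iAnd fun y =>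
      if Sim S F₁ F₂ θ₁ θ₂ x y then .top else ψ x y
    let ρ : Fml V := iOr fun x => if x ∈ X then χ x else .bot
    have hρ : Positive S ρ := by
      refine positive_iOr fun x => ?_
      split_ifs
      · refine positive_iAnd fun y => ?_
        split_ifs
        · trivial
        · exact hψ1 x y
      · trivial
    have h1 : X ⊆ eval F₁ θ₁ ρ := by
      intro x hx
      rw [mem_iOr]
      refine ⟨x, ?_⟩
      rw [if_pos hx, mem_iAnd]
      intro y
      split_ifs with h
      · exact Set.mem_univ x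
      · exact (hψ2 x y h).1
    have h2 : eval F₂ θ₂ ρ ⊆ img (Sim S F₁ F₂ θ₁ θ₂) X := by
      intro y hy
      rw [mem_iOr] at hy
      obtain ⟨x, hx⟩ := hy
      split_ifs at hx with hX
      · refine ⟨x, hX, ?_⟩
        rw [mem_iAnd] at hx
        have := hx y
        by_contra hcon
        rw [if_neg hcon] at this
        exact (hψ2 x y hcon).2 this
      · exact hx.elim
    have h3 := hz (.dia ρ) hρ (F₁.mono _ _ h1 hw₁)
    exact F₂.mono _ _ h2 h3
  · rintro X w₁ ⟨w₂, hw₂, hz⟩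
    by_contra hcon
    let δ : W₂ → Fml V := fun y => iOr fun x =>
      if Sim S F₁ F₂ θ₁ θ₂ x y then .bot else ψ x y
    let ξ : Fml V := iAnd fun y => if y ∈ X then δ y else .top
    have hξ : Positive S ξ := by
      refine positive_iAnd fun y => ?_
      split_ifs
      · refine positive_iOr fun x => ?_
        split_ifs
        · trivial
        · exact hψ1 x y
      · trivial
    have h1 : (eval F₁ θ₁ ξ)ᶜ ⊆ pre (Sim S F₁ F₂ θ₁ θ₂) X := by
      intro x hx
      by_contra hn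
      apply hx
      rw [mem_iAnd]
      intro y
      split_ifs with hy
      · rw [mem_iOr]
        refine ⟨x, ?_⟩
        have hxy : ¬ Sim S F₁ F₂ θ₁ θ₂ x y := fun h => hn ⟨y, hy, h⟩
        rw [if_neg hxy]
        exact (hψ2 x y hxy).1
      · exact Set.mem_univ x
    have h2 : X ⊆ (eval F₂ θ₂ ξ)ᶜ := by
      intro y hy hn
      rw [mem_iAnd] at hn
      have := hn y
      rw [if_pos hy, mem_iOr] at this
      obtain ⟨x, hx⟩ := this
      split_ifs at hx with h
      · exact hx.elim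
      · exact (hψ2 x y h).2 hx
    have h3 := hz (.box ξ) hξ (fun h => hcon (F₁.mono _ _ h1 h))
    exact h3 (F₂.mono _ _ h2 hw₂)
  · rintro p y ⟨x, hx, hz⟩
    exact hz (.pos p) trivial hx
  · rintro p hp y ⟨x, hx, hz⟩
    exact hz (.neg p) hp hx

/-- The variables of a formula. -/
def vars [DecidableEq V] : Fml V → Finset V
  | .pos p => {p}
  | .neg p => {p}
  | .bot => ∅
  | .top => ∅
  | .and φ ψ => vars φ ∪ vars ψ
  | .or φ ψ => vars φ ∪ vars ψ
  | .dia φ => vars φ
  | .box φ => vars φ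

/-- Replace all variables outside `U` by `⊥`. -/
def cut [DecidableEq V] (U : Finset V) : Fml V → Fml V
  | .pos p => if p ∈ U then .pos p else .bot
  | .neg p => if p ∈ U then .neg p else .top
  | .bot => .bot
  | .top => .top
  | .and φ ψ => .and (cut U φ) (cut U ψ)
  | .or φ ψ => .or (cut U φ) (cut U ψ)
  | .dia φ => .dia (cut U φ)
  | .box φ => .box (cut U φ)

/-- The valuation which agrees with `θ` on `U` and is empty elsewhere. -/
def res [DecidableEq V] {W : Type} (U : Finset V) (θ : V → Set W) : V → Set W :=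
  fun p => if p ∈ U then θ p else ∅

theorem eval_cut [DecidableEq V] {W : Type} (F : Frame W) (U : Finset V) (θ : V → Set W)
    (φ : Fml V) : eval F θ (cut U φ) = eval F (res U θ) φ := by
  induction φ with
  | pos p =>
    simp only [cut, eval, res]
    split_ifs <;> rfl
  | neg p =>
    simp only [cut, eval, res]
    split_ifs
    · rfl
    · simp [eval]
  | bot => rfl
  | top => rfl
  | and φ ψ ih1 ih2 => simp only [cut, eval, ih1, ih2]
  | or φ ψ ih1 ih2 => simp only [cut, eval, ih1, ih2]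
  | dia φ ih => simp only [cut, eval, ih]
  | box φ ih => simp only [cut, eval, ih]

theorem eval_congr [DecidableEq V] {W : Type} (F : Frame W) {θ θ' : V → Set W} (φ : Fml V)
    (h : ∀ p ∈ vars φ, θ p = θ' p) : eval F θ φ = eval F θ' φ := by
  induction φ with
  | pos p => exact h p (by simp [vars])
  | neg p => simp only [eval, h p (by simp [vars])]
  | bot => rfl
  | top => rfl
  | and φ ψ ih1 ih2 =>
    simp only [eval]
    rw [ih1 fun p hp => h p (by simp [vars, hp]), ih2 fun p hp => h p (by simp [vars, hp])]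
  | or φ ψ ih1 ih2 =>
    simp only [eval]
    rw [ih1 fun p hp => h p (by simp [vars, hp]), ih2 fun p hp => h p (by simp [vars, hp])]
  | dia φ ih =>
    simp only [eval]
    rw [ih h]
  | box φ ih =>
    simp only [eval]
    rw [ih h]

theorem eval_res [DecidableEq V] {W : Type} (F : Frame W) (θ : V → Set W) (φ : Fml V) :
    eval F (res (vars φ) θ) φ = eval F θ φ :=
  eval_congr F φ fun p hp => by simp [res, hp]

theorem positive_cut [DecidableEq V] {S : Set V} {U : Finset V} {φ : Fml V}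
    (h : Positive S φ) : Positive S (cut U φ) := by
  induction φ with
  | pos p =>
    simp only [cut]
    split_ifs <;> trivial
  | neg p =>
    simp only [cut]
    split_ifs
    · exact h
    · trivial
  | bot => trivial
  | top => trivial
  | and φ ψ ih1 ih2 => exact ⟨ih1 h.1, ih2 h.2⟩
  | or φ ψ ih1 ih2 => exact ⟨ih1 h.1, ih2 h.2⟩
  | dia φ ih => exact ih h
  | box φ ih => exact ih h

end

end Pool.Agent.V11234.MonoModal
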