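import Mathlib
import Pool.Agent.Helper247.UecPcp
import Pool.Agent.Helper247.Univ

/-!
Adding two dominoes to the correspondence instance of `Helper247.UecPcp`: the unique equality
continuation property then fails exactly when the simulated computation halts.
-/

set_option autoImplicit false

namespace Pool.Agent.V11234.UecRec

open Relation Pool.Agent.Helper247.Queue Pool.Agent.Helper247.UecPcp

section

variable {S : Type} (P : S → S → List S) (K : S) [Fintype S] (c : S × Bool → ℕ)

/-- The consumed words, with two more dominoes. -/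
noncomputable def G2 : List (List ℕ) := [c (K, false), 1] :: [c (K, true), 1] :: G K c

/-- The produced words, with two more dominoes. -/
noncomputable def H2 (w : List ℕ) : List (List ℕ) := [1, 1] :: [1, 1] :: H P c w

theorem length_eq2 (w : List ℕ) : (H2 P c w).length = (G2 K c).length := by
  have := length_eq P K c w
  simp only [H2, G2, List.length_cons]
  omega

theorem dom_cases2 (w : List ℕ) {i : ℕ} (hi : i < (H2 P c w).length) :
    (i = 2 ∧ (G2 K c).getD i [] = [0] ∧ (H2 P c w).getD i [] = 0 :: w) ∨
    (∃ b, (G2 K c).getD i [] = [c (K, b), 1] ∧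
      ((H2 P c w).getD i [] = [1] ∨ (H2 P c w).getD i [] = [1, 1])) ∨
    (∃ x y, (G2 K c).getD i [] = [c x, c y] ∧ (H2 P c w).getD i [] = (Phat P x y).map c) := by
  match i, hi with
  | 0, _ => exact Or.inr (Or.inl ⟨false, rfl, Or.inr rfl⟩)
  | 1, _ => exact Or.inr (Or.inl ⟨true, rfl, Or.inr rfl⟩)
  | k + 2, hi =>
    have hk : k < (H P c w).length := by
      simp only [H2, List.length_cons] at hi
      omega
    have e1 : (G2 K c).getD (k + 2) [] = (G K c).getD k [] := by
      simp [G2, List.getD_eq_getElem?_getD]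
    have e2 : (H2 P c w).getD (k + 2) [] = (H P c w).getD k [] := by
      simp [H2, List.getD_eq_getElem?_getD]
    rw [e1, e2]
    rcases dom_cases P K c w hk with ⟨rfl, h1, h2⟩ | ⟨b, h1, h2⟩ | ⟨x, y, h1, h2⟩
    · exact Or.inl ⟨rfl, h1, h2⟩
    · exact Or.inr (Or.inl ⟨b, h1, Or.inl h2⟩)
    · exact Or.inr (Or.inr ⟨x, y, h1, h2⟩)

variable (hc : Function.Injective c) (hc2 : ∀ x, 2 ≤ c x)
variable (hP1 : ∀ x y, 2 ≤ (P x y).length ∨ P x y = [K])
variable (hP2 : ∀ y, (P K y).head? ≠ some y)

include hc hc2

theorem next_two2 (w : List ℕ) {i : ℕ} (hi : i < (H2 P c w).length) {x y : S × Bool}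
    {t : List (S × Bool)}
    (h : Comp ((x :: y :: t).map c ++ (H2 P c w).getD i []) ((G2 K c).getD i [])) :
    (G2 K c).getD i [] = [c x, c y] ∧ (H2 P c w).getD i [] = (Phat P x y).map c := by
  have h0 : ∀ x, c x ≠ 0 := fun x h => by have := hc2 x; omega
  have h1 : ∀ x, c x ≠ 1 := fun x h => by have := hc2 x; omega
  rcases dom_cases2 P K c w hi with ⟨-, hg, -⟩ | ⟨b, hg, -⟩ | ⟨x', y', hg, hh⟩
  · rw [hg] at h
    exact absurd (comp_cons h).1 (h0 _)
  · rw [hg] at h
    exact absurd (comp_cons (comp_cons h).2).1 (h1 _)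
  · rw [hg] at h
    have e1 := hc (comp_cons h).1
    have e2 := hc (comp_cons (comp_cons h).2).1
    subst e1 e2
    exact ⟨hg, hh⟩

/-- A domino is determined by its consumed word if that word encodes two letters. -/
theorem index_unique (w : List ℕ) {i j : ℕ} (hi : i < (H2 P c w).length)
    (hj : j < (H2 P c w).length) {x y : S × Bool}
    (h1 : (G2 K c).getD i [] = [c x, c y]) (h2 : (G2 K c).getD j [] = [c x, c y]) : i = j := by
  have hne : ∀ b, [c (K, b), 1] ≠ [c x, c y] := by
    intro b h
    simp only [List.cons.injEq, and_true] at h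
    have := hc2 y
    omega
  match i, j, hi, hj with
  | 0, _, _, _ => exact absurd h1 (hne _)
  | 1, _, _, _ => exact absurd h1 (hne _)
  | _ + 2, 0, _, _ => exact absurd h2 (hne _)
  | _ + 2, 1, _, _ => exact absurd h2 (hne _)
  | k + 2, l + 2, hi, hj =>
    have hl := length_eq P K c w
    have hk : k < (G K c).length := by
      simp only [H2, List.length_cons] at hi
      omega
    have hl : l < (G K c).length := by
      simp only [H2, List.length_cons] at hj
      omega
    have e1 : (G2 K c).getD (k + 2) [] = (G K c).getD k [] := by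
      simp [G2, List.getD_eq_getElem?_getD]
    have e2 : (G2 K c).getD (l + 2) [] = (G K c).getD l [] := by
      simp [G2, List.getD_eq_getElem?_getD]
    rw [e1] at h1
    rw [e2] at h2
    rw [G_inj K c hc hc2 hk hl (h1.trans h2.symm)]

include hP1

theorem start_only2 (w : List ℕ) {i : ℕ} (hi : i < (H2 P c w).length)
    (h : Comp ((H2 P c w).getD i []) ((G2 K c).getD i [])) :
    (G2 K c).getD i [] = [0] ∧ (H2 P c w).getD i [] = 0 :: w := by
  have h1 : ∀ x, c x ≠ 1 := fun x h => by have := hc2 x; omega
  rcases dom_cases2 P K c w hi with ⟨-, hg, hh⟩ | ⟨b, hg, hh⟩ | ⟨x, y, hg, hh⟩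
  · exact ⟨hg, hh⟩
  · rcases hh with hh | hh
    · rw [hg, hh] at h
      exact absurd (comp_cons h).1.symm (h1 _)
    · rw [hg, hh] at h
      exact absurd (comp_cons h).1.symm (h1 _)
  · exfalso
    rw [hg, hh, Phat] at h
    rcases hp : P x.1 y.1 with _ | ⟨p, ps⟩
    · exact P_ne_nil P K hP1 _ _ hp
    · rw [hp] at h
      simp only [List.map_cons] at h
      have e := hc (comp_cons h).1
      have e2 := congrArg Prod.snd e
      simp at e2

/-- If the computation does not halt, the reachable differences of the two words are the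
configurations of the queue system, all of length at least two. -/
theorem inv2 (w0 : List (S × Bool)) (hw : 2 ≤ w0.length)
    (hno : ∀ b, ¬ QReach (Phat P) w0 [(K, b)]) (u : List ℕ) :
    (∀ i ∈ u, i < (H2 P c (w0.map c)).length) →
    Comp (app (H2 P c (w0.map c)) u) (app (G2 K c) u) →
    app (H2 P c (w0.map c)) u = app (G2 K c) u ∨
    ∃ z, app (H2 P c (w0.map c)) u = app (G2 K c) u ++ z.map c ∧
      2 ≤ z.length ∧ QReach (Phat P) w0 z := by
  induction u using List.reverseRecOn with
  | nil => intro _ _; left; rfl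
  | append_singleton u i ih =>
    intro hu hcomp
    have hi : i < (H2 P c (w0.map c)).length := hu i (by simp)
    rw [app_snoc, app_snoc] at hcomp ⊢
    rcases ih (fun j hj => hu j (by simp [hj])) (comp_prefix hcomp) with h | ⟨z, hz, hgood, hr⟩
    · rw [h] at hcomp ⊢
      rw [comp_append_left] at hcomp
      obtain ⟨hg, hh⟩ := start_only2 P K c hc hc2 hP1 _ hi hcomp
      right
      refine ⟨w0, ?_, hw, ReflTransGen.refl⟩
      rw [hg, hh]
      simp
    · rw [hz, List.append_assoc] at hcomp ⊢
      rw [comp_append_left] at hcomp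
      match z, hgood, hcomp, hr with
      | x :: y :: t, _, hcomp, hr =>
        obtain ⟨hg, hh⟩ := next_two2 P K c hc hc2 _ hi hcomp
        right
        have hr' := hr.tail (QStep.mk (P := Phat P) x y t)
        refine ⟨t ++ Phat P x y, ?_, ?_, hr'⟩
        · rw [hg, hh]
          simp
        · rcases hP1 x.1 y.1 with h | h
          · simp only [List.length_append, Phat, List.length_map]
            omega
          · rcases t with _ | ⟨t1, t⟩
            · exfalso
              apply hno (!x.2)
              simpa [Phat, h] using hr'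
            · simp [Phat, h]

/-- Unique equality continuation holds if the computation does not halt. -/
theorem uec2 (w0 : List (S × Bool)) (hw : 2 ≤ w0.length)
    (hno : ∀ b, ¬ QReach (Phat P) w0 [(K, b)]) (u : List ℕ)
    (hu : ∀ i ∈ u, i < (H2 P c (w0.map c)).length) (a b : ℕ)
    (ha : a < (H2 P c (w0.map c)).length) (hb : b < (H2 P c (w0.map c)).length) (hab : a ≠ b)
    (h1 : Comp (app (H2 P c (w0.map c)) (u ++ [a])) (app (G2 K c) (u ++ [a])))
    (h2 : Comp (app (H2 P c (w0.map c)) (u ++ [b])) (app (G2 K c) (u ++ [b]))) :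
    app (H2 P c (w0.map c)) u = app (G2 K c) u := by
  rw [app_snoc, app_snoc] at h1 h2
  rcases inv2 P K c hc hc2 hP1 w0 hw hno u hu (comp_prefix h1) with h | ⟨z, hz, hgood, hr⟩
  · exact h
  · exfalso
    apply hab
    rw [hz, List.append_assoc, comp_append_left] at h1 h2
    match z, hgood, h1, h2 with
    | x :: y :: t, _, h1, h2 =>
      exact index_unique P K c hc hc2 _ ha hb (next_two2 P K c hc hc2 _ ha h1).1
        (next_two2 P K c hc hc2 _ hb h2).1

omit hc hc2 hP1 in
/-- Unique equality continuation fails if the computation halts. -/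
theorem not_uec2 (w0 : List (S × Bool)) {b : Bool} (h : QReach (Phat P) w0 [(K, b)]) :
    ∃ u : List ℕ, (∀ i ∈ u, i < (H2 P c (w0.map c)).length) ∧ ∃ i j : ℕ,
      i < (H2 P c (w0.map c)).length ∧ j < (H2 P c (w0.map c)).length ∧ i ≠ j ∧
      Comp (app (H2 P c (w0.map c)) (u ++ [i])) (app (G2 K c) (u ++ [i])) ∧
      Comp (app (H2 P c (w0.map c)) (u ++ [j])) (app (G2 K c) (u ++ [j])) ∧
      app (H2 P c (w0.map c)) u ≠ app (G2 K c) u := by
  have eG : ∀ k, (G2 K c).getD (k + 2) [] = (G K c).getD k [] := by
    intro k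
    simp [G2, List.getD_eq_getElem?_getD]
  have eH : ∀ k, (H2 P c (w0.map c)).getD (k + 2) [] = (H P c (w0.map c)).getD k [] := by
    intro k
    simp [H2, List.getD_eq_getElem?_getD]
  have lH : (H2 P c (w0.map c)).length = (H P c (w0.map c)).length + 2 := by
    simp [H2]
  have key : ∀ z, QReach (Phat P) w0 z →
      ∃ u : List ℕ, (∀ i ∈ u, i < (H2 P c (w0.map c)).length) ∧
        app (H2 P c (w0.map c)) u = app (G2 K c) u ++ z.map c := by
    intro z hz
    induction hz with
    | refl =>
      refine ⟨[2], by simp [H2, H], ?_⟩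
      simp [app, H2, G2, H, G]
    | tail _ hs ih =>
      obtain ⟨u, hu, he⟩ := ih
      cases hs with
      | mk x y t =>
        obtain ⟨i, hi, hg, hh⟩ := dom_exists P K c (w0.map c) x y
        refine ⟨u ++ [i + 2], ?_, ?_⟩
        · intro j hj
          simp only [List.mem_append, List.mem_singleton] at hj
          rcases hj with hj | rfl
          · exact hu j hj
          · omega
        · rw [app_snoc, app_snoc, he, eG, eH, hg, hh]
          simp
  obtain ⟨u, hu, he⟩ := key _ h
  obtain ⟨i, hi, hg, hh⟩ := end_exists P K c (w0.map c) b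
  have hB : ∃ k, k < 2 ∧ (G2 K c).getD k [] = [c (K, b), 1] ∧
      (H2 P c (w0.map c)).getD k [] = [1, 1] := by
    cases b
    · exact ⟨0, by omega, rfl, rfl⟩
    · exact ⟨1, by omega, rfl, rfl⟩
  obtain ⟨k, hk, hg2, hh2⟩ := hB
  refine ⟨u, hu, i + 2, k, by omega, by omega, by omega, ?_, ?_, ?_⟩
  · rw [app_snoc, app_snoc, he, eG, eH, hg, hh]
    left
    simp
  · rw [app_snoc, app_snoc, he, hg2, hh2]
    right
    simp
  · rw [he]
    simp

end

end Pool.Agent.V11234.UecRec
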