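import Mathlib

set_option autoImplicit false

/-!
# Symmetric functions given by polynomials in the power sums: the definitions
-/

namespace Pool.Agent.V11234.AnyDim

/-- An input: a polynomial with rational coefficients in the power sums `p_1, p_2, ...`, given as the
finite list of its monomials. The monomial `((a, b), [k_1, ..., k_r])` stands for
`a / (b + 1) * p_{k_1 + 1} * ... * p_{k_r + 1}`. -/
abbrev Input : Type := List ((ℤ × ℕ) × List ℕ)

/-- The power sum `x_1 ^ k + ... + x_n ^ k`. -/
noncomputable def psum {n : ℕ} (x : Fin n → ℝ) (k : ℕ) : ℝ := ∑ i, x i ^ k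

/-- The value `f⁽ⁿ⁾(x)` at `x ∈ ℝⁿ` of the truncation of the symmetric function `f`. -/
noncomputable def value (f : Input) {n : ℕ} (x : Fin n → ℝ) : ℝ :=
  (f.map fun m => (m.1.1 : ℝ) / ((m.1.2 : ℝ) + 1) *
    (m.2.map fun k => psum x (k + 1)).prod).sum

/-- `f` is any-dimensional non-negative. -/
def NonNeg (f : Input) : Prop := ∀ (n : ℕ) (x : Fin n → ℝ), 0 ≤ value f x

/-- All monomials of the given polynomial in the power sums have degree at most `d` (the power sum
`p_k` having degree `k`). -/
def DegLe (d : ℕ) (f : Input) : Prop := ∀ m ∈ f, (m.2.map (· + 1)).sum ≤ d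

/-- `f` is homogeneous (of degree `d` for some `d`), as a symmetric function. -/
def Homogeneous (f : Input) : Prop :=
  ∃ d : ℕ, ∀ (n : ℕ) (x : Fin n → ℝ) (t : ℝ), value f (t • x) = t ^ d * value f x

/-- `f` is any-dimensional positive: all truncations are positive at all points, with the exception
of the point `0` when `f` is homogeneous. -/
def Positive (f : Input) : Prop :=
  ∀ (n : ℕ) (x : Fin n → ℝ), ¬ (Homogeneous f ∧ x = 0) → 0 < value f x

end Pool.Agent.V11234.AnyDim
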