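import Mathlib
import Pool.Agent.Helper967.DxDPRM
import Pool.Agent.V11234.AnyDimDefs

set_option autoImplicit false

/-!
# Symmetric functions given by polynomials in the power sums

The class of functions which are represented by them, and the reduction of an arbitrary r.e. set.
-/

namespace Pool.Agent.V11234.AnyDim

open Polynomial

/-! ### representable functions -/

/-- The function is given by an input. -/
def Rep (F : ∀ n : ℕ, (Fin n → ℝ) → ℝ) : Prop := ∃ f : Input, ∀ n x, value f (n := n) x = F n x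

theorem value_append (f g : Input) {n : ℕ} (x : Fin n → ℝ) :
    value (f ++ g) x = value f x + value g x := by
  unfold value
  rw [List.map_append, List.sum_append]

theorem value_nil {n : ℕ} (x : Fin n → ℝ) : value [] x = 0 := rfl

theorem value_cons (m : (ℤ × ℕ) × List ℕ) (f : Input) {n : ℕ} (x : Fin n → ℝ) :
    value (m :: f) x = (m.1.1 : ℝ) / ((m.1.2 : ℝ) + 1) *
    (m.2.map fun k => psum x (k + 1)).prod + value f x := by
  unfold value
  rw [List.map_cons, List.sum_cons]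

theorem Rep.add {F G : ∀ n : ℕ, (Fin n → ℝ) → ℝ} (hF : Rep F) (hG : Rep G) :
    Rep fun n x => F n x + G n x := by
  obtain ⟨f, hf⟩ := hF
  obtain ⟨g, hg⟩ := hG
  exact ⟨f ++ g, fun n x => by rw [value_append, hf, hg]⟩

theorem Rep.congr {F G : ∀ n : ℕ, (Fin n → ℝ) → ℝ} (hF : Rep F) (h : ∀ n x, F n x = G n x) :
    Rep G := by
  obtain ⟨f, hf⟩ := hF
  exact ⟨f, fun n x => by rw [hf, h]⟩

theorem Rep.const (q : ℚ) : Rep fun _ _ => (q : ℝ) := by
  refine ⟨[((q.num, q.den - 1), [])], fun n x => ?_⟩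
  have h1 : ((q.den - 1 : ℕ) : ℝ) + 1 = q.den := by
    have : 1 ≤ q.den := q.den_pos
    exact_mod_cast Nat.sub_add_cancel this
  rw [value_cons, value_nil]
  simp only [List.map_nil, List.prod_nil, mul_one, add_zero]
  rw [h1]
  exact (Rat.cast_def q).symm

theorem Rep.nat (q : ℕ) : Rep fun _ _ => (q : ℝ) := (Rep.const q).congr fun n x => by simp

theorem Rep.int (q : ℤ) : Rep fun _ _ => (q : ℝ) := (Rep.const q).congr fun n x => by simp

theorem Rep.psum (k : ℕ) (hk : k ≠ 0) : Rep fun _ x => psum x k := by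
  obtain ⟨k, rfl⟩ := Nat.exists_eq_succ_of_ne_zero hk
  refine ⟨[((1, 0), [k])], fun n x => ?_⟩
  rw [value_cons, value_nil]
  simp

/-- the product of two inputs -/
def mulI (f g : Input) : Input :=
  f.flatMap fun m => g.map fun m' =>
    ((m.1.1 * m'.1.1, (m.1.2 + 1) * (m'.1.2 + 1) - 1), m.2 ++ m'.2)

theorem value_mulI (f g : Input) {n : ℕ} (x : Fin n → ℝ) :
    value (mulI f g) x = value f x * value g x := by
  have h1 : ∀ m : (ℤ × ℕ) × List ℕ, ∀ g : Input, value (g.map fun m' =>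
      ((m.1.1 * m'.1.1, (m.1.2 + 1) * (m'.1.2 + 1) - 1), m.2 ++ m'.2)) x =
      (m.1.1 : ℝ) / ((m.1.2 : ℝ) + 1) * (m.2.map fun k => psum x (k + 1)).prod * value g x := by
    intro m g
    induction g with
    | nil => simp [value_nil]
    | cons m' g ih =>
      rw [List.map_cons, value_cons, ih, value_cons]
      simp only [List.map_append, List.prod_append]
      have e1 : (((m.1.2 + 1) * (m'.1.2 + 1) - 1 : ℕ) : ℝ) + 1 =
          ((m.1.2 : ℝ) + 1) * ((m'.1.2 : ℝ) + 1) := by
        have h : 1 ≤ (m.1.2 + 1) * (m'.1.2 + 1) := Nat.one_le_iff_ne_zero.2 (by positivity)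
        have := Nat.sub_add_cancel h
        exact_mod_cast this
      rw [e1]
      push_cast
      have p1 : (m.1.2 : ℝ) + 1 ≠ 0 := by positivity
      have p2 : (m'.1.2 : ℝ) + 1 ≠ 0 := by positivity
      field_simp
  induction f with
  | nil => simp [mulI, value_nil]
  | cons m f ih =>
    have : mulI (m :: f) g = (g.map fun m' =>
      ((m.1.1 * m'.1.1, (m.1.2 + 1) * (m'.1.2 + 1) - 1), m.2 ++ m'.2)) ++ mulI f g := by
      unfold mulI
      rw [List.flatMap_cons]
    rw [this, value_append, ih, h1, value_cons]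
    ring

theorem Rep.mul {F G : ∀ n : ℕ, (Fin n → ℝ) → ℝ} (hF : Rep F) (hG : Rep G) :
    Rep fun n x => F n x * G n x := by
  obtain ⟨f, hf⟩ := hF
  obtain ⟨g, hg⟩ := hG
  exact ⟨mulI f g, fun n x => by rw [value_mulI, hf, hg]⟩

theorem Rep.sub {F G : ∀ n : ℕ, (Fin n → ℝ) → ℝ} (hF : Rep F) (hG : Rep G) :
    Rep fun n x => F n x - G n x := by
  refine (hF.add ((Rep.const (-1)).mul hG)).congr fun n x => ?_
  push_cast
  ring

theorem Rep.pow {F : ∀ n : ℕ, (Fin n → ℝ) → ℝ} (hF : Rep F) (e : ℕ) :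
    Rep fun n x => F n x ^ e := by
  induction e with
  | zero => exact (Rep.nat 1).congr fun n x => by simp
  | succ e ih => exact (ih.mul hF).congr fun n x => by rw [pow_succ]

theorem Rep.sum {ι : Type} (s : Finset ι) {F : ι → ∀ n : ℕ, (Fin n → ℝ) → ℝ}
    (hF : ∀ i ∈ s, Rep (F i)) : Rep fun n x => ∑ i ∈ s, F i n x := by
  classical
  induction s using Finset.induction_on with
  | empty => exact (Rep.nat 0).congr fun n x => by simp
  | insert i s hi ih =>
    refine ((hF i (Finset.mem_insert_self _ _)).add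
      (ih fun j hj => hF j (Finset.mem_insert_of_mem hj))).congr fun n x => ?_
    rw [Finset.sum_insert hi]

/-- the function `∑ A(x_i)` -/
noncomputable def psumP (A : ℚ[X]) (n : ℕ) (x : Fin n → ℝ) : ℝ := ∑ i, aeval (x i) A

theorem Rep.psumP {A : ℚ[X]} (hA : A.coeff 0 = 0) : Rep (psumP A) := by
  have h : Rep fun n x => ∑ k ∈ A.support, ((A.coeff k : ℚ) : ℝ) * AnyDim.psum x k := by
    refine Rep.sum _ fun k hk => (Rep.const (A.coeff k)).mul (Rep.psum k ?_)
    rintro rfl
    exact (Polynomial.mem_support_iff.1 hk) hA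
  refine h.congr fun n x => ?_
  unfold AnyDim.psumP AnyDim.psum
  simp_rw [Finset.mul_sum]
  rw [Finset.sum_comm]
  refine Finset.sum_congr rfl fun i _ => ?_
  rw [Polynomial.aeval_def, Polynomial.eval₂_eq_sum, Polynomial.sum_def]
  rfl

/-! ### polynomials in finitely many variables -/

/-- The integer polynomial `p` has an extension to real arguments which preserves representability
and satisfies polynomial bounds. -/
def Good {α : Type} (p : (α → ℕ) → ℤ) : Prop :=
  ∃ P : (α → ℝ) → ℝ, (∀ v : α → ℕ, P (fun i => (v i : ℝ)) = p v) ∧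
    (∀ g : α → ∀ n : ℕ, (Fin n → ℝ) → ℝ, (∀ i, Rep (g i)) → Rep fun n x => P fun i => g i n x) ∧
    ∃ (C : ℝ) (D : ℕ), 0 ≤ C ∧ ∀ S : ℝ, 1 ≤ S → ∀ u v : α → ℝ, (∀ i, |u i| ≤ S) →
      (∀ i, |v i| ≤ S) → |P u| ≤ C * S ^ D ∧ |P v| ≤ C * S ^ D ∧
      ∀ ε : ℝ, 0 ≤ ε → (∀ i, |u i - v i| ≤ ε) → |P u - P v| ≤ C * S ^ D * ε

theorem good_all {α : Type} (p : Poly α) : Good p := by
  refine Poly.induction (C := fun p => Good p) ?_ ?_ ?_ ?_ p
  · intro i
    refine ⟨fun v => v i, fun v => by simp, fun g hg => hg i, 1, 1, zero_le_one, ?_⟩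
    intro S hS u v hu hv
    refine ⟨by simpa using hu i, by simpa using hv i, fun ε hε h => ?_⟩
    calc |u i - v i| ≤ ε := h i
      _ ≤ 1 * S ^ 1 * ε := by
        rw [one_mul, pow_one]
        nlinarith
  · intro n
    refine ⟨fun _ => n, fun v => by simp, fun g hg => Rep.int n, |(n : ℝ)|, 0, abs_nonneg _, ?_⟩
    intro S hS u v hu hv
    refine ⟨by simp, by simp, fun ε hε h => ?_⟩
    simp only [sub_self, abs_zero]
    positivity
  · rintro p1 p2 ⟨P1, a1, b1, C1, D1, c1, d1⟩ ⟨P2, a2, b2, C2, D2, c2, d2⟩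
    refine ⟨fun v => P1 v - P2 v, fun v => by simp [a1, a2], fun g hg => (b1 g hg).sub (b2 g hg),
      C1 + C2, D1 + D2, add_nonneg c1 c2, ?_⟩
    intro S hS u v hu hv
    obtain ⟨e1, e2, e3⟩ := d1 S hS u v hu hv
    obtain ⟨f1, f2, f3⟩ := d2 S hS u v hu hv
    have m1 : S ^ D1 ≤ S ^ (D1 + D2) := pow_le_pow_right₀ hS (by omega)
    have m2 : S ^ D2 ≤ S ^ (D1 + D2) := pow_le_pow_right₀ hS (by omega)
    have n1 : C1 * S ^ D1 ≤ C1 * S ^ (D1 + D2) := mul_le_mul_of_nonneg_left m1 c1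
    have n2 : C2 * S ^ D2 ≤ C2 * S ^ (D1 + D2) := mul_le_mul_of_nonneg_left m2 c2
    refine ⟨?_, ?_, fun ε hε h => ?_⟩
    · calc |P1 u - P2 u| ≤ |P1 u| + |P2 u| := abs_sub _ _
        _ ≤ (C1 + C2) * S ^ (D1 + D2) := by linarith
    · calc |P1 v - P2 v| ≤ |P1 v| + |P2 v| := abs_sub _ _
        _ ≤ (C1 + C2) * S ^ (D1 + D2) := by linarith
    · have g1 := e3 ε hε h
      have g2 := f3 ε hε h
      have k1 : C1 * S ^ D1 * ε ≤ C1 * S ^ (D1 + D2) * ε := mul_le_mul_of_nonneg_right n1 hε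
      have k2 : C2 * S ^ D2 * ε ≤ C2 * S ^ (D1 + D2) * ε := mul_le_mul_of_nonneg_right n2 hε
      calc |P1 u - P2 u - (P1 v - P2 v)| = |(P1 u - P1 v) - (P2 u - P2 v)| := by ring_nf
        _ ≤ |P1 u - P1 v| + |P2 u - P2 v| := abs_sub _ _
        _ ≤ (C1 + C2) * S ^ (D1 + D2) * ε := by linarith
  · rintro p1 p2 ⟨P1, a1, b1, C1, D1, c1, d1⟩ ⟨P2, a2, b2, C2, D2, c2, d2⟩
    refine ⟨fun v => P1 v * P2 v, fun v => by simp [a1, a2], fun g hg => (b1 g hg).mul (b2 g hg),
      2 * (C1 * C2), D1 + D2, by positivity, ?_⟩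
    intro S hS u v hu hv
    obtain ⟨e1, e2, e3⟩ := d1 S hS u v hu hv
    obtain ⟨f1, f2, f3⟩ := d2 S hS u v hu hv
    have s1 : 0 ≤ S ^ D1 := by positivity
    have s2 : 0 ≤ S ^ D2 := by positivity
    have t1 : 0 ≤ C1 * S ^ D1 := by positivity
    have t2 : 0 ≤ C2 * S ^ D2 := by positivity
    have hmul : C1 * S ^ D1 * (C2 * S ^ D2) = C1 * C2 * S ^ (D1 + D2) := by
      rw [pow_add]; ring
    have t3 : 0 ≤ C1 * C2 * S ^ (D1 + D2) := by rw [← hmul]; positivity
    refine ⟨?_, ?_, fun ε hε h => ?_⟩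
    · rw [abs_mul]
      have := mul_le_mul e1 f1 (abs_nonneg _) t1
      linarith
    · rw [abs_mul]
      have := mul_le_mul e2 f2 (abs_nonneg _) t1
      linarith
    · have g1 := e3 ε hε h
      have g2 := f3 ε hε h
      have h1 : |P1 u| * |P2 u - P2 v| ≤ C1 * S ^ D1 * (C2 * S ^ D2 * ε) :=
        mul_le_mul e1 g2 (abs_nonneg _) t1
      have h2 : |P1 u - P1 v| * |P2 v| ≤ C1 * S ^ D1 * ε * (C2 * S ^ D2) :=
        mul_le_mul g1 f2 (abs_nonneg _) (mul_nonneg t1 hε)
      calc |P1 u * P2 u - P1 v * P2 v| = |P1 u * (P2 u - P2 v) + (P1 u - P1 v) * P2 v| := by ring_nf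
        _ ≤ |P1 u * (P2 u - P2 v)| + |(P1 u - P1 v) * P2 v| := abs_add_le _ _
        _ = |P1 u| * |P2 u - P2 v| + |P1 u - P1 v| * |P2 v| := by rw [abs_mul, abs_mul]
        _ ≤ C1 * S ^ D1 * (C2 * S ^ D2 * ε) + C1 * S ^ D1 * ε * (C2 * S ^ D2) := add_le_add h1 h2
        _ = 2 * (C1 * S ^ D1 * (C2 * S ^ D2)) * ε := by ring
        _ = 2 * (C1 * C2) * S ^ (D1 + D2) * ε := by rw [hmul]; ring

/-! ### interpolation -/

theorem poly_bound (h : ℚ[X]) : ∃ (B : ℝ) (d : ℕ), 0 ≤ B ∧
    ∀ x : ℝ, |aeval x h| ≤ B * (1 + |x|) ^ d := by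
  induction h using Polynomial.induction_on' with
  | add p q hp hq =>
    obtain ⟨B1, d1, b1, e1⟩ := hp
    obtain ⟨B2, d2, b2, e2⟩ := hq
    refine ⟨B1 + B2, d1 + d2, add_nonneg b1 b2, fun x => ?_⟩
    have h0 : (1 : ℝ) ≤ 1 + |x| := by linarith [abs_nonneg x]
    have m1 : (1 + |x|) ^ d1 ≤ (1 + |x|) ^ (d1 + d2) := pow_le_pow_right₀ h0 (by omega)
    have m2 : (1 + |x|) ^ d2 ≤ (1 + |x|) ^ (d1 + d2) := pow_le_pow_right₀ h0 (by omega)
    rw [map_add]
    calc |aeval x p + aeval x q| ≤ |aeval x p| + |aeval x q| := abs_add_le _ _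
      _ ≤ B1 * (1 + |x|) ^ d1 + B2 * (1 + |x|) ^ d2 := add_le_add (e1 x) (e2 x)
      _ ≤ B1 * (1 + |x|) ^ (d1 + d2) + B2 * (1 + |x|) ^ (d1 + d2) :=
        add_le_add (mul_le_mul_of_nonneg_left m1 b1) (mul_le_mul_of_nonneg_left m2 b2)
      _ = (B1 + B2) * (1 + |x|) ^ (d1 + d2) := by ring
  | monomial n a =>
    refine ⟨|(a : ℝ)|, n, abs_nonneg _, fun x => ?_⟩
    rw [Polynomial.aeval_monomial, abs_mul, abs_pow]
    refine mul_le_mul_of_nonneg_left ?_ (abs_nonneg _)
    exact pow_le_pow_left₀ (abs_nonneg _) (by linarith) _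

/-- the nearest number in `{0, ..., K}` -/
theorem near (K : ℕ) (x : ℝ) : ∃ k ≤ K, ∀ k' ≤ K, k' ≠ k → 1 / 2 ≤ |x - k'| := by
  obtain ⟨k, hk, hmin⟩ := Finset.exists_min_image (Finset.range (K + 1)) (fun k : ℕ => |x - k|)
    ⟨0, by simp⟩
  refine ⟨k, by simpa [Nat.lt_succ_iff] using hk, fun k' hk' hne => ?_⟩
  have h1 := hmin k' (by simpa [Nat.lt_succ_iff] using hk')
  have h2 : (1 : ℝ) ≤ |(k : ℝ) - k'| := by
    have : (1 : ℤ) ≤ |(k : ℤ) - k'| := Int.one_le_abs (by omega)
    exact_mod_cast this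
  have h3 : |(k : ℝ) - k'| ≤ |x - k| + |x - k'| := by
    have := abs_sub_abs_le_abs_sub (x - k') (x - k)
    calc |(k : ℝ) - k'| = |(x - k') - (x - k)| := by ring_nf
      _ ≤ |x - k'| + |x - k| := abs_sub _ _
      _ = _ := add_comm _ _
  linarith

/-- `X (X - 1) ... (X - K)` -/
noncomputable def rP (K : ℕ) : ℚ[X] := ∏ k ∈ Finset.range (K + 1), (X - C (k : ℚ))

theorem aeval_rP (K : ℕ) (x : ℝ) : aeval x (rP K) = ∏ k ∈ Finset.range (K + 1), (x - k) := by
  unfold rP
  rw [map_prod]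
  refine Finset.prod_congr rfl fun k _ => ?_
  simp

theorem rP_lower {K k : ℕ} (hk : k ≤ K) {x : ℝ} (h : ∀ k' ≤ K, k' ≠ k → 1 / 2 ≤ |x - k'|) :
    |x - k| ≤ 2 ^ K * |aeval x (rP K)| := by
  rw [aeval_rP, Finset.abs_prod]
  have hk' : k ∈ Finset.range (K + 1) := by simpa [Nat.lt_succ_iff] using hk
  rw [← Finset.mul_prod_erase _ _ hk']
  have h1 : (1 / 2 : ℝ) ^ K ≤ ∏ i ∈ (Finset.range (K + 1)).erase k, |x - i| := by
    have : (1 / 2 : ℝ) ^ K = ∏ i ∈ (Finset.range (K + 1)).erase k, (1 / 2 : ℝ) := by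
      rw [Finset.prod_const, Finset.card_erase_of_mem hk', Finset.card_range]
      simp
    rw [this]
    refine Finset.prod_le_prod (fun i _ => by norm_num) fun i hi => ?_
    rw [Finset.mem_erase, Finset.mem_range, Nat.lt_succ_iff] at hi
    exact h i hi.2 hi.1
  calc |x - k| = 2 ^ K * (|x - k| * (1 / 2 : ℝ) ^ K) := by
        rw [mul_comm |x - (k : ℝ)|, ← mul_assoc, ← mul_pow]
        norm_num
    _ ≤ _ := by
      refine mul_le_mul_of_nonneg_left ?_ (by positivity)
      exact mul_le_mul_of_nonneg_left h1 (abs_nonneg _)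

/-- the interpolation polynomial: `1` at `j`, `0` at the other numbers in `{0, ..., K}`, with a
double zero at `0` -/
noncomputable def lP (K j : ℕ) : ℚ[X] :=
  X ^ 2 * (C (1 / (j : ℚ) ^ 2) * ∏ k ∈ ((Finset.range (K + 1)).erase 0).erase j,
    (C (1 / ((j : ℚ) - k)) * (X - C (k : ℚ))))

theorem lP_eval_self {K j : ℕ} (hj : j ≠ 0) : (lP K j).eval (j : ℚ) = 1 := by
  unfold lP
  rw [eval_mul, eval_mul, eval_prod]
  have : ∏ k ∈ ((Finset.range (K + 1)).erase 0).erase j,
      eval (j : ℚ) (C (1 / ((j : ℚ) - k)) * (X - C (k : ℚ))) = 1 := by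
    refine Finset.prod_eq_one fun k hk => ?_
    have hne : (j : ℚ) - k ≠ 0 := by
      have : k ≠ j := (Finset.mem_erase.1 hk).1
      intro h
      apply this
      have h2 : (k : ℚ) = j := by linarith
      exact_mod_cast h2
    simp only [eval_mul, eval_C, eval_sub, eval_X]
    field_simp
  rw [this]
  have hj' : (j : ℚ) ≠ 0 := by exact_mod_cast hj
  simp only [eval_pow, eval_X, eval_C, mul_one]
  field_simp

theorem lP_eval_other {K j k : ℕ} (hk : k ≤ K) (hkj : k ≠ j) : (lP K j).eval (k : ℚ) = 0 := by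
  unfold lP
  by_cases h0 : k = 0
  · subst h0
    simp
  · rw [eval_mul, eval_mul, eval_prod]
    have : ∏ i ∈ ((Finset.range (K + 1)).erase 0).erase j,
        eval (k : ℚ) (C (1 / ((j : ℚ) - i)) * (X - C (i : ℚ))) = 0 := by
      refine Finset.prod_eq_zero (i := k) ?_ (by simp)
      rw [Finset.mem_erase, Finset.mem_erase, Finset.mem_range]
      exact ⟨hkj, h0, by omega⟩
    rw [this]
    simp

theorem lP_coeff_zero (K j : ℕ) : (lP K j).coeff 0 = 0 := by
  unfold lP
  rw [Polynomial.mul_coeff_zero]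
  simp

/-- the error of the interpolation polynomials -/
theorem err_one (K j k : ℕ) (hj : j ≠ 0) (hk : k ≤ K) : ∃ (B : ℝ) (d : ℕ), 0 ≤ B ∧
    ∀ x : ℝ, (∀ k' ≤ K, k' ≠ k → 1 / 2 ≤ |x - k'|) →
      |aeval x (lP K j) - (if k = j then 1 else 0)| ≤
        B * (1 + |x|) ^ d * (|x| * |aeval x (rP K)|) := by
  by_cases hk0 : k = 0
  · subst hk0
    obtain ⟨B, d, hB, hb⟩ := poly_bound (C (1 / (j : ℚ) ^ 2) *
      ∏ k ∈ ((Finset.range (K + 1)).erase 0).erase j, (C (1 / ((j : ℚ) - k)) * (X - C (k : ℚ))))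
    refine ⟨B * 2 ^ K, d, by positivity, fun x hx => ?_⟩
    rw [if_neg (Ne.symm hj), sub_zero]
    unfold lP
    rw [map_mul, abs_mul]
    have h1 := hb x
    have h2 := rP_lower hk hx
    have h3 : |aeval x ((X : ℚ[X]) ^ 2)| = |x| * |x| := by
      simp [sq, abs_mul]
    rw [h3]
    rw [Nat.cast_zero, sub_zero] at h2
    have h4 : |x| * |x| ≤ |x| * (2 ^ K * |aeval x (rP K)|) :=
      mul_le_mul_of_nonneg_left h2 (abs_nonneg _)
    calc _ ≤ |x| * (2 ^ K * |aeval x (rP K)|) * (B * (1 + |x|) ^ d) :=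
          mul_le_mul h4 h1 (abs_nonneg _) (by positivity)
      _ = _ := by ring
  · have hdvd : (X - C (k : ℚ)) ∣ lP K j - C (if k = j then (1 : ℚ) else 0) := by
      rw [Polynomial.dvd_iff_isRoot, Polynomial.IsRoot.def, eval_sub, eval_C]
      by_cases hkj : k = j
      · subst hkj
        rw [if_pos rfl, lP_eval_self hj, sub_self]
      · rw [if_neg hkj, lP_eval_other hk hkj, sub_self]
    obtain ⟨h, hh⟩ := hdvd
    obtain ⟨B, d, hB, hb⟩ := poly_bound h
    refine ⟨B * 2 ^ K * 2, d, by positivity, fun x hx => ?_⟩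
    have e1 : aeval x (lP K j) - (if k = j then (1 : ℝ) else 0) = (x - k) * aeval x h := by
      have := congrArg (aeval x) hh
      rw [map_sub, map_mul, map_sub, aeval_X, aeval_C, aeval_C] at this
      rw [← (show (algebraMap ℚ ℝ) (k : ℚ) = k by simp), ← this]
      congr 1
      split_ifs <;> simp
    rw [e1, abs_mul]
    have h2 := rP_lower hk hx
    have h3 : 1 / 2 ≤ |x| := by
      have := hx 0 (Nat.zero_le _) (Ne.symm hk0)
      simpa using this
    have h4 : |x - k| ≤ 2 ^ K * |aeval x (rP K)| * (2 * |x|) := by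
      have : (1 : ℝ) ≤ 2 * |x| := by linarith
      calc |x - k| ≤ 2 ^ K * |aeval x (rP K)| * 1 := by linarith
        _ ≤ _ := mul_le_mul_of_nonneg_left this (by positivity)
    calc _ ≤ 2 ^ K * |aeval x (rP K)| * (2 * |x|) * (B * (1 + |x|) ^ d) :=
          mul_le_mul h4 (hb x) (abs_nonneg _) (by positivity)
      _ = _ := by ring

theorem err_all (K : ℕ) : ∃ (B : ℝ) (d : ℕ), 0 ≤ B ∧ ∀ j ≤ K, j ≠ 0 → ∀ k ≤ K,
    ∀ x : ℝ, (∀ k' ≤ K, k' ≠ k → 1 / 2 ≤ |x - k'|) →
      |aeval x (lP K j) - (if k = j then 1 else 0)| ≤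
        B * (1 + |x|) ^ d * (|x| * |aeval x (rP K)|) := by
  classical
  have h : ∀ j k : ℕ, ∃ (B : ℝ) (d : ℕ), 0 ≤ B ∧ (j ≠ 0 → k ≤ K →
      ∀ x : ℝ, (∀ k' ≤ K, k' ≠ k → 1 / 2 ≤ |x - k'|) →
      |aeval x (lP K j) - (if k = j then 1 else 0)| ≤
        B * (1 + |x|) ^ d * (|x| * |aeval x (rP K)|)) := by
    intro j k
    by_cases hj : j ≠ 0
    · by_cases hk : k ≤ K
      · obtain ⟨B, d, h1, h2⟩ := err_one K j k hj hk
        exact ⟨B, d, h1, fun _ _ => h2⟩
      · exact ⟨0, 0, le_rfl, fun _ h => absurd h hk⟩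
    · exact ⟨0, 0, le_rfl, fun h _ => absurd h hj⟩
  choose B d hB hh using h
  let s : Finset (ℕ × ℕ) := Finset.range (K + 1) ×ˢ Finset.range (K + 1)
  refine ⟨∑ p ∈ s, B p.1 p.2, ∑ p ∈ s, d p.1 p.2, Finset.sum_nonneg fun p _ => hB _ _, ?_⟩
  intro j hjK hj k hk x hx
  have hmem : (j, k) ∈ s := by
    simp only [s, Finset.mem_product, Finset.mem_range]
    omega
  refine (hh j k hj hk x hx).trans ?_
  have h0 : (1 : ℝ) ≤ 1 + |x| := by linarith [abs_nonneg x]
  have h1 : B j k ≤ ∑ p ∈ s, B p.1 p.2 :=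
    Finset.single_le_sum (f := fun p : ℕ × ℕ => B p.1 p.2) (fun p _ => hB _ _) hmem
  have h2 : d j k ≤ ∑ p ∈ s, d p.1 p.2 :=
    Finset.single_le_sum (f := fun p : ℕ × ℕ => d p.1 p.2) (fun p _ => Nat.zero_le _) hmem
  have h3 : (1 + |x|) ^ d j k ≤ (1 + |x|) ^ ∑ p ∈ s, d p.1 p.2 := pow_le_pow_right₀ h0 h2
  refine mul_le_mul_of_nonneg_right ?_ (by positivity)
  exact mul_le_mul h1 h3 (by positivity) (Finset.sum_nonneg fun p _ => hB _ _)

/-! ### the main estimate -/

theorem psum_two_nonneg {n : ℕ} (x : Fin n → ℝ) : 0 ≤ psum x 2 :=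
  Finset.sum_nonneg fun i _ => sq_nonneg _

theorem one_add_abs_le {n : ℕ} (x : Fin n → ℝ) (i : Fin n) : 1 + |x i| ≤ 2 * (1 + psum x 2) := by
  have h1 : x i ^ 2 ≤ psum x 2 :=
    Finset.single_le_sum (f := fun i => x i ^ 2) (fun i _ => sq_nonneg _) (Finset.mem_univ i)
  have h2 : |x i| ^ 2 = x i ^ 2 := sq_abs _
  nlinarith [sq_nonneg (|x i| - 1), psum_two_nonneg x]

theorem main_est (K : ℕ) : ∃ (A : ℝ) (E : ℕ), 0 ≤ A ∧ ∀ (n : ℕ) (x : Fin n → ℝ),
    ∃ N : ℕ → ℕ, ∀ j ≤ K, j ≠ 0 → (N j : ℝ) ≤ 4 * (1 + psum x 2) ∧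
      (psumP (lP K j) n x - N j) ^ 2 ≤ A * (1 + psum x 2) ^ E * psumP (rP K ^ 2) n x := by
  classical
  obtain ⟨B, d, hB, hb⟩ := err_all K
  refine ⟨(B * 2 ^ d) ^ 2, 2 * d + 1, by positivity, fun n x => ?_⟩
  choose c hcK hc using fun i => near K (x i)
  refine ⟨fun j => (Finset.univ.filter fun i => c i = j).card, fun j hjK hj => ?_⟩
  set T : ℝ := 1 + psum x 2 with hT
  have hT1 : 1 ≤ T := by rw [hT]; linarith [psum_two_nonneg x]
  constructor
  · have h1 : ((Finset.univ.filter fun i => c i = j).card : ℝ) =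
        ∑ i, if c i = j then (1 : ℝ) else 0 := by
      rw [Finset.sum_ite, Finset.sum_const_zero, add_zero, Finset.sum_const, nsmul_eq_mul, mul_one]
    rw [h1]
    calc ∑ i, (if c i = j then (1 : ℝ) else 0) ≤ ∑ i, 4 * x i ^ 2 := by
          refine Finset.sum_le_sum fun i _ => ?_
          split_ifs with h
          · have := hc i 0 (Nat.zero_le _) (by rw [h]; exact Ne.symm hj)
            rw [Nat.cast_zero, sub_zero] at this
            have h2 : |x i| ^ 2 = x i ^ 2 := sq_abs _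
            nlinarith [abs_nonneg (x i)]
          · positivity
      _ = 4 * psum x 2 := by rw [psum, Finset.mul_sum]
      _ ≤ 4 * T := by linarith
  · have h1 : psumP (lP K j) n x - ((Finset.univ.filter fun i => c i = j).card : ℝ) =
        ∑ i, (aeval (x i) (lP K j) - if c i = j then (1 : ℝ) else 0) := by
      rw [Finset.sum_sub_distrib, Finset.sum_ite, Finset.sum_const_zero, add_zero,
        Finset.sum_const, nsmul_eq_mul, mul_one]
      rfl
    have h2 : |psumP (lP K j) n x - ((Finset.univ.filter fun i => c i = j).card : ℝ)| ≤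
        B * 2 ^ d * T ^ d * ∑ i, |x i| * |aeval (x i) (rP K)| := by
      rw [h1]
      refine (Finset.abs_sum_le_sum_abs _ _).trans ?_
      rw [Finset.mul_sum]
      refine Finset.sum_le_sum fun i _ => ?_
      refine (hb j hjK hj (c i) (hcK i) (x i) (hc i)).trans ?_
      refine mul_le_mul_of_nonneg_right ?_ (by positivity)
      rw [mul_assoc, ← mul_pow]
      refine mul_le_mul_of_nonneg_left ?_ hB
      exact pow_le_pow_left₀ (by positivity) (one_add_abs_le x i) _
    have h3 : (∑ i, |x i| * |aeval (x i) (rP K)|) ^ 2 ≤ psum x 2 * psumP (rP K ^ 2) n x := by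
      refine (Finset.sum_mul_sq_le_sq_mul_sq _ _ _).trans (le_of_eq ?_)
      unfold psum psumP
      congr 1
      · exact Finset.sum_congr rfl fun i _ => sq_abs _
      · exact Finset.sum_congr rfl fun i _ => by rw [sq_abs, map_pow]
    have hQ : 0 ≤ psumP (rP K ^ 2) n x := by
      unfold psumP
      exact Finset.sum_nonneg fun i _ => by rw [map_pow]; exact sq_nonneg _
    calc (psumP (lP K j) n x - ((Finset.univ.filter fun i => c i = j).card : ℝ)) ^ 2
        = |psumP (lP K j) n x - ((Finset.univ.filter fun i => c i = j).card : ℝ)| ^ 2 :=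
          (sq_abs _).symm
      _ ≤ (B * 2 ^ d * T ^ d * ∑ i, |x i| * |aeval (x i) (rP K)|) ^ 2 :=
          pow_le_pow_left₀ (abs_nonneg _) h2 2
      _ = (B * 2 ^ d) ^ 2 * (T ^ d) ^ 2 * (∑ i, |x i| * |aeval (x i) (rP K)|) ^ 2 := by ring
      _ ≤ (B * 2 ^ d) ^ 2 * (T ^ d) ^ 2 * (psum x 2 * psumP (rP K ^ 2) n x) :=
          mul_le_mul_of_nonneg_left h3 (by positivity)
      _ ≤ (B * 2 ^ d) ^ 2 * (T ^ d) ^ 2 * (T * psumP (rP K ^ 2) n x) := by
          refine mul_le_mul_of_nonneg_left ?_ (by positivity)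
          refine mul_le_mul_of_nonneg_right ?_ hQ
          rw [hT]; linarith
      _ = (B * 2 ^ d) ^ 2 * T ^ (2 * d + 1) * psumP (rP K ^ 2) n x := by ring

/-- the point with `N j` coordinates equal to `j` -/
theorem exists_point (K : ℕ) (N : ℕ → ℕ) : ∃ (n : ℕ) (x : Fin n → ℝ),
    (∀ j ≤ K, j ≠ 0 → psumP (lP K j) n x = N j) ∧ psumP (rP K ^ 2) n x = 0 := by
  classical
  let ι := Σ j : Fin K, Fin (N (j + 1))
  let e : ι ≃ Fin (Fintype.card ι) := Fintype.equivFin ι
  refine ⟨Fintype.card ι, fun i => (((e.symm i).1 : ℕ) : ℝ) + 1, ?_, ?_⟩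
  · intro j hjK hj
    unfold psumP
    rw [← Equiv.sum_comp e]
    simp only [Equiv.symm_apply_apply]
    rw [Fintype.sum_sigma]
    have h1 : ∀ k : Fin K, (aeval (((k : ℕ) : ℝ) + 1) (lP K j) : ℝ) =
        if (k : ℕ) + 1 = j then 1 else 0 := by
      intro k
      have h2 : ((k : ℕ) : ℝ) + 1 = algebraMap ℚ ℝ (((k : ℕ) + 1 : ℕ) : ℚ) := by
        push_cast; simp
      rw [h2, Polynomial.aeval_algebraMap_apply, Polynomial.coe_aeval_eq_eval]
      split_ifs with h
      · rw [h, lP_eval_self hj, map_one]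
      · rw [lP_eval_other (by omega) h, map_zero]
    simp only [h1, Finset.sum_const, Finset.card_univ, Fintype.card_fin, nsmul_eq_mul]
    rw [Finset.sum_eq_single (⟨j - 1, by omega⟩ : Fin K)]
    · have : j - 1 + 1 = j := by omega
      simp [this]
    · intro b _ hb
      rw [if_neg, mul_zero]
      intro h
      apply hb
      apply Fin.ext
      simp only
      omega
    · intro h
      exact absurd (Finset.mem_univ _) h
  · unfold psumP
    refine Finset.sum_eq_zero fun i _ => ?_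
    rw [map_pow, aeval_rP]
    have : ∏ k ∈ Finset.range (K + 1), ((((e.symm i).1 : ℕ) : ℝ) + 1 - k) = 0 := by
      refine Finset.prod_eq_zero (i := ((e.symm i).1 : ℕ) + 1) ?_ (by push_cast; ring)
      rw [Finset.mem_range]
      have := (e.symm i).1.2
      omega
    rw [this]
    simp

/-! ### the reduction -/

open Dioph in
/-- For every r.e. set of natural numbers there are two fixed inputs `F0` and `G0` such that
`F_a = F0 + a * G0 + a ^ 2` has a negative value if `a` is in the set, and is positive everywhere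
otherwise. -/
theorem reduction {p : ℕ → Prop} (hp : REPred p) : ∃ F0 G0 : Input, ∀ a : ℕ,
    (p a → ∃ (n : ℕ) (x : Fin n → ℝ), value F0 x + a * value G0 x + a * a < 0) ∧
    (¬ p a → ∀ (n : ℕ) (x : Fin n → ℝ), 0 < value F0 x + a * value G0 x + a * a) := by
  classical
  obtain ⟨δ, _, P0, hP0⟩ := Pool.Agent.Helper967.Dio.finite_dummies
    (Pool.Agent.Helper967.Dio.dprm hp)
  obtain ⟨P, hPagree, hPrep, CP, D, hCP, hPb⟩ := good_all P0
  let K := Fintype.card (Unit ⊕ δ)
  let e : (Unit ⊕ δ) ≃ Fin K := Fintype.equivFin _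
  let idx : Unit ⊕ δ → ℕ := fun i => (e i : ℕ) + 1
  have idx_le : ∀ i, idx i ≤ K := fun i => (e i).2
  have idx_ne : ∀ i, idx i ≠ 0 := fun i => Nat.succ_ne_zero _
  have idx_inj : Function.Injective idx := fun i j h =>
    e.injective (Fin.ext (by simp only [idx] at h; omega))
  obtain ⟨A, E, hA, hest⟩ := main_est K
  -- the constants
  obtain ⟨M0, hM0⟩ := exists_nat_ge (100 * (CP * 5 ^ D + 1) ^ 2 * A)
  let L : (Unit ⊕ δ) → ∀ n : ℕ, (Fin n → ℝ) → ℝ := fun i => psumP (lP K (idx i))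
  have hL : ∀ i, Rep (L i) := fun i => Rep.psumP (lP_coeff_zero _ _)
  let o : Unit ⊕ δ := Sum.inl ()
  let T : ∀ n : ℕ, (Fin n → ℝ) → ℝ := fun n x => 1 + psum x 2
  have hTrep : Rep T := ((Rep.nat 1).add (Rep.psum 2 (by norm_num))).congr fun n x => by simp [T]
  have hQrep : Rep (psumP (rP K ^ 2)) := by
    refine Rep.psumP ?_
    unfold rP
    rw [Polynomial.coeff_zero_eq_eval_zero, eval_pow, eval_prod]
    have : ∏ k ∈ Finset.range (K + 1), eval (0 : ℚ) (X - C (k : ℚ)) = 0 :=
      Finset.prod_eq_zero (i := 0) (by simp) (by simp)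
    rw [this]
    simp
  have hF : Rep fun n x => P (fun i => L i n x) ^ 2 + L o n x ^ 2 - ((1 / 2 : ℚ) : ℝ) +
      (M0 : ℝ) * T n x ^ (2 * D + E) * psumP (rP K ^ 2) n x :=
    ((((hPrep L hL).pow 2).add ((hL o).pow 2)).sub (Rep.const (1 / 2))).add
      (((Rep.nat M0).mul (hTrep.pow _)).mul hQrep)
  have hG : Rep fun n x => ((-2 : ℚ) : ℝ) * L o n x := (Rep.const (-2)).mul (hL o)
  obtain ⟨F0, hF0⟩ := hF
  obtain ⟨G0, hG0⟩ := hG
  have hval : ∀ (a : ℕ) (n : ℕ) (x : Fin n → ℝ), value F0 x + a * value G0 x + a * a =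
      P (fun i => L i n x) ^ 2 + (L o n x - a) ^ 2 - 1 / 2 +
      (M0 : ℝ) * T n x ^ (2 * D + E) * psumP (rP K ^ 2) n x := by
    intro a n x
    rw [hF0, hG0]
    push_cast
    ring
  refine ⟨F0, G0, fun a => ⟨fun hpa => ?_, fun hpa n x => ?_⟩⟩
  · obtain ⟨t, ht⟩ := (hP0 (fun _ => a)).1 hpa
    obtain ⟨n, x, h1, h2⟩ := exists_point K (fun m =>
      if h : ∃ i, idx i = m then Sum.elim (fun _ => a) t h.choose else 0)
    refine ⟨n, x, ?_⟩
    have h3 : ∀ i, L i n x = ((Sum.elim (fun _ => a) t i : ℕ) : ℝ) := by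
      intro i
      have h4 := h1 (idx i) (idx_le i) (idx_ne i)
      have h5 : ∃ j, idx j = idx i := ⟨i, rfl⟩
      rw [dif_pos h5, idx_inj h5.choose_spec] at h4
      exact h4
    have h6 : P (fun i => L i n x) = 0 := by
      have : (fun i => L i n x) = fun i => ((Sum.elim (fun _ => a) t i : ℕ) : ℝ) := funext h3
      rw [this, hPagree, ht]
      simp
    rw [hval, h6, h2, h3]
    simp only [o, Sum.elim_inl]
    norm_num
  · rw [hval]
    obtain ⟨N, hN⟩ := hest n x
    have hQ : 0 ≤ psumP (rP K ^ 2) n x := by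
      unfold psumP
      exact Finset.sum_nonneg fun i _ => by rw [map_pow]; exact sq_nonneg _
    have hT1 : 1 ≤ T n x := by
      simp only [T]
      linarith [psum_two_nonneg x]
    have hM0' : (0 : ℝ) ≤ M0 := Nat.cast_nonneg _
    by_cases hbig : 1 ≤ (M0 : ℝ) * T n x ^ (2 * D + E) * psumP (rP K ^ 2) n x
    · nlinarith [sq_nonneg (P (fun i => L i n x)), sq_nonneg (L o n x - a)]
    · rw [not_le] at hbig
      set S := T n x with hS
      set Q := psumP (rP K ^ 2) n x with hQdef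
      -- the error is small
      have herr : ∀ i, (10 * ((CP * 5 ^ D + 1) * S ^ D)) * |L i n x - N (idx i)| ≤ 1 := by
        intro i
        have h1 := (hN (idx i) (idx_le i) (idx_ne i)).2
        have h2 : ((10 * ((CP * 5 ^ D + 1) * S ^ D)) * |L i n x - N (idx i)|) ^ 2 ≤ 1 := by
          calc ((10 * ((CP * 5 ^ D + 1) * S ^ D)) * |L i n x - N (idx i)|) ^ 2
              = 100 * (CP * 5 ^ D + 1) ^ 2 * S ^ (2 * D) * (L i n x - N (idx i)) ^ 2 := by
                rw [← sq_abs (L i n x - N (idx i))]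
                ring
            _ ≤ 100 * (CP * 5 ^ D + 1) ^ 2 * S ^ (2 * D) * (A * S ^ E * Q) :=
                mul_le_mul_of_nonneg_left h1 (by positivity)
            _ = (100 * (CP * 5 ^ D + 1) ^ 2 * A) * (S ^ (2 * D + E) * Q) := by
                rw [pow_add]; ring
            _ ≤ M0 * (S ^ (2 * D + E) * Q) :=
                mul_le_mul_of_nonneg_right hM0 (by positivity)
            _ = (M0 : ℝ) * S ^ (2 * D + E) * Q := by ring
            _ ≤ 1 := hbig.le
        have h3 : 0 ≤ (10 * ((CP * 5 ^ D + 1) * S ^ D)) * |L i n x - N (idx i)| := by positivity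
        nlinarith
      have hSD : 1 ≤ S ^ D := one_le_pow₀ hT1
      have hC5 : 0 ≤ CP * 5 ^ D := by positivity
      have hbase : 1 ≤ (CP * 5 ^ D + 1) * S ^ D := by nlinarith
      have herr1 : ∀ i, |L i n x - N (idx i)| ≤ 1 / 10 := by
        intro i
        have := herr i
        nlinarith [abs_nonneg (L i n x - N (idx i))]
      by_cases hNa : N (idx o) = a
      · -- the value of the polynomial at the integer point is not zero
        let v : Unit ⊕ δ → ℕ := fun i => N (idx i)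
        have hne : P0 v ≠ 0 := by
          intro h0
          apply hpa
          refine (hP0 (fun _ => a)).2 ⟨fun i => v (Sum.inr i), ?_⟩
          rw [← h0]
          congr 1
          funext i
          rcases i with i | i
          · exact hNa.symm
          · rfl
        have h1 : (1 : ℝ) ≤ |P fun i => (v i : ℝ)| := by
          rw [hPagree]
          have := Int.one_le_abs hne
          exact_mod_cast this
        have hb1 : ∀ i, |((v i : ℕ) : ℝ)| ≤ 5 * S := by
          intro i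
          rw [abs_of_nonneg (Nat.cast_nonneg _)]
          have := (hN (idx i) (idx_le i) (idx_ne i)).1
          have h2 : ((v i : ℕ) : ℝ) ≤ 4 * S := this
          linarith
        have hb2 : ∀ i, |L i n x| ≤ 5 * S := by
          intro i
          have := (hN (idx i) (idx_le i) (idx_ne i)).1
          have h2 : ((v i : ℕ) : ℝ) ≤ 4 * S := this
          have h3 := herr1 i
          have h4 : |L i n x| ≤ |L i n x - N (idx i)| + |((v i : ℕ) : ℝ)| := by
            have : L i n x = (L i n x - N (idx i)) + ((v i : ℕ) : ℝ) := by simp [v]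
            calc |L i n x| = |(L i n x - N (idx i)) + ((v i : ℕ) : ℝ)| := by rw [← this]
              _ ≤ _ := abs_add_le _ _
          rw [abs_of_nonneg (Nat.cast_nonneg (v i) : (0 : ℝ) ≤ ((v i : ℕ) : ℝ))] at h4
          linarith
        obtain ⟨-, -, h5⟩ := hPb (5 * S) (by linarith) (fun i => L i n x) (fun i => (v i : ℝ))
          hb2 hb1
        have hpos : 0 < 10 * ((CP * 5 ^ D + 1) * S ^ D) := by linarith
        have h6 := h5 (1 / (10 * ((CP * 5 ^ D + 1) * S ^ D))) (by positivity) (fun i => by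
          rw [le_div_iff₀ hpos, mul_comm]
          exact herr i)
        have h7 : CP * (5 * S) ^ D * (1 / (10 * ((CP * 5 ^ D + 1) * S ^ D))) ≤ 1 / 10 := by
          rw [mul_one_div, div_le_iff₀ hpos, mul_pow]
          nlinarith
        have h8 : |P (fun i => L i n x) - P fun i => (v i : ℝ)| ≤ 1 / 10 := h6.trans h7
        have h9 : 9 / 10 ≤ |P fun i => L i n x| := by
          have := abs_sub_abs_le_abs_sub (P fun i => (v i : ℝ)) (P fun i => L i n x)
          rw [abs_sub_comm] at this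
          linarith
        have h10 : 81 / 100 ≤ (P fun i => L i n x) ^ 2 := by
          rw [← sq_abs]
          nlinarith
        have h11 : 0 ≤ (M0 : ℝ) * S ^ (2 * D + E) * Q := by positivity
        nlinarith [sq_nonneg (L o n x - a)]
      · have h1 : (1 : ℝ) ≤ |(N (idx o) : ℝ) - a| := by
          have : (1 : ℤ) ≤ |(N (idx o) : ℤ) - a| := Int.one_le_abs (by omega)
          exact_mod_cast this
        have h2 := herr1 o
        have h3 : 9 / 10 ≤ |L o n x - a| := by
          have h4 := abs_sub_abs_le_abs_sub ((N (idx o) : ℝ) - a) (L o n x - a)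
          have h5 : |(N (idx o) : ℝ) - a - (L o n x - a)| = |L o n x - N (idx o)| := by
            rw [abs_sub_comm]
            congr 1
            ring
          rw [h5] at h4
          linarith
        have h10 : 81 / 100 ≤ (L o n x - a) ^ 2 := by
          rw [← sq_abs]
          nlinarith
        have h11 : 0 ≤ (M0 : ℝ) * S ^ (2 * D + E) * Q := by positivity
        nlinarith [sq_nonneg (P (fun i => L i n x))]

/-- the input `F0 + a * G0 + a ^ 2` -/
def inst (F0 G0 : Input) (a : ℕ) : Input :=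
  F0 ++ ((List.range a).flatMap (fun _ => G0) ++
    (List.range (a * a)).flatMap (fun _ => [((1, 0), [])]))

theorem value_flatMap (G : Input) (a : ℕ) {n : ℕ} (x : Fin n → ℝ) :
    value ((List.range a).flatMap (fun _ => G)) x = a * value G x := by
  induction a with
  | zero => simp [value_nil]
  | succ a ih =>
    rw [List.range_succ, List.flatMap_append, value_append, ih]
    simp only [List.flatMap_cons, List.flatMap_nil, List.append_nil]
    push_cast
    ring

theorem value_inst (F0 G0 : Input) (a : ℕ) {n : ℕ} (x : Fin n → ℝ) :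
    value (inst F0 G0 a) x = value F0 x + a * value G0 x + a * a := by
  unfold inst
  rw [value_append, value_append, value_flatMap, value_flatMap, value_cons, value_nil]
  simp
  ring

theorem inst_primrec (F0 G0 : Input) : Primrec (inst F0 G0) := by
  unfold inst
  refine Primrec.list_append.comp (Primrec.const F0) (Primrec.list_append.comp ?_ ?_)
  · exact Primrec.list_flatMap Primrec.list_range (Primrec.const G0).to₂
  · exact Primrec.list_flatMap
      (Primrec.list_range.comp (Primrec.nat_mul.comp Primrec.id Primrec.id))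
      (Primrec.const [((1, 0), [])]).to₂

theorem exists_degLe (F : Input) : ∃ d, DegLe d F := by
  refine ⟨(F.map fun m => (m.2.map (· + 1)).sum).sum, fun m hm => ?_⟩
  exact List.single_le_sum (by simp) _ (List.mem_map_of_mem hm)

theorem inst_degLe (F0 G0 : Input) : ∃ d, ∀ a, DegLe d (inst F0 G0 a) := by
  obtain ⟨d1, h1⟩ := exists_degLe F0
  obtain ⟨d2, h2⟩ := exists_degLe G0
  refine ⟨d1 + d2, fun a m hm => ?_⟩
  unfold inst at hm
  rw [List.mem_append, List.mem_append, List.mem_flatMap, List.mem_flatMap] at hm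
  rcases hm with hm | ⟨_, _, hm⟩ | ⟨_, _, hm⟩
  · have := h1 m hm; omega
  · have := h2 m hm; omega
  · rw [List.mem_singleton] at hm
    subst hm
    simp

theorem value_zero (f : Input) (n m : ℕ) :
    value f (0 : Fin n → ℝ) = value f (0 : Fin m → ℝ) := by
  have h : ∀ k, psum (0 : Fin n → ℝ) (k + 1) = psum (0 : Fin m → ℝ) (k + 1) := by
    intro k
    simp [psum]
  unfold value
  simp only [h]

theorem not_positive {f : Input} {n : ℕ} {x : Fin n → ℝ} (h : value f x < 0) : ¬ Positive f := by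
  intro hp
  by_cases hx : Homogeneous f ∧ x = 0
  · obtain ⟨⟨d, hd⟩, rfl⟩ := hx
    have h1 := hd 1 (fun _ => 1) 0
    rw [zero_smul, value_zero f 1 n] at h1
    have h2 := hp 1 (fun _ => 1) (by
      rintro ⟨-, h3⟩
      have := congrFun h3 0
      norm_num at this)
    have h3 : (0 : ℝ) ≤ 0 ^ d := by positivity
    nlinarith [mul_nonneg h3 h2.le]
  · linarith [hp n x hx]

/-- There is an r.e. set of natural numbers whose complement is not r.e. -/
theorem exists_re_not_co : ∃ p : ℕ → Prop, REPred p ∧ ¬ REPred fun n => ¬ p n := by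
  classical
  let p : ℕ → Prop := fun a =>
    (Nat.Partrec.Code.eval (Denumerable.ofNat Nat.Partrec.Code a) 0).Dom
  have hre : REPred p := by
    have h : Partrec fun a : ℕ =>
        Nat.Partrec.Code.eval (Denumerable.ofNat Nat.Partrec.Code a) 0 :=
      Nat.Partrec.Code.eval_part.comp (Primrec.ofNat Nat.Partrec.Code).to_comp
        (Computable.const 0)
    exact h.dom_re
  refine ⟨p, hre, fun hco => ?_⟩
  have hc : ComputablePred p := ComputablePred.computable_iff_re_compl_re.2 ⟨hre, hco⟩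
  apply ComputablePred.halting_problem 0
  refine ComputablePred.computable_of_manyOneReducible (q := p)
    ⟨Encodable.encode, Computable.encode, fun c => ?_⟩ hc
  change _ ↔ (Nat.Partrec.Code.eval
    (Denumerable.ofNat Nat.Partrec.Code (Encodable.encode c)) 0).Dom
  rw [Denumerable.ofNat_encode]

/-- The general form: for a property `Φ` which holds for the everywhere positive inputs, and fails
for the inputs with negative values. -/
theorem hard (Φ : Input → Prop) (h1 : ∀ f : Input, (∀ (n : ℕ) (x : Fin n → ℝ), 0 < value f x) → Φ f)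
    (h2 : ∀ f : Input, (∃ (n : ℕ) (x : Fin n → ℝ), value f x < 0) → ¬ Φ f) :
    (¬ ComputablePred Φ) ∧ ∃ d : ℕ, ¬ REPred fun f => DegLe d f ∧ Φ f := by
  obtain ⟨p, hp, hnp⟩ := exists_re_not_co
  obtain ⟨F0, G0, hred⟩ := reduction hp
  obtain ⟨d, hd⟩ := inst_degLe F0 G0
  have key : ∀ a, Φ (inst F0 G0 a) ↔ ¬ p a := by
    intro a
    constructor
    · intro h hpa
      obtain ⟨n, x, hx⟩ := (hred a).1 hpa
      exact h2 _ ⟨n, x, by rw [value_inst]; exact hx⟩ h
    · intro h
      exact h1 _ fun n x => by rw [value_inst]; exact (hred a).2 h n x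
  have hc : Computable (inst F0 G0) := (inst_primrec F0 G0).to_comp
  constructor
  · intro h
    apply hnp
    have h3 : REPred fun a => Φ (inst F0 G0 a) := Partrec.comp h.to_re hc
    exact h3.of_eq key
  · refine ⟨d, fun h => hnp ?_⟩
    have h3 : REPred fun a => DegLe d (inst F0 G0 a) ∧ Φ (inst F0 G0 a) := Partrec.comp h hc
    exact h3.of_eq fun a => by rw [← key a]; exact ⟨fun h => h.2, fun h => ⟨hd a, h⟩⟩

end Pool.Agent.V11234.AnyDim
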