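import Mathlib
import Pool.Agent.Helper967.DxDPRM
import Pool.Agent.Helper967.ArithDef
set_option autoImplicit false

/-! Classes of predicates on sequences of naturals that contain the graphs of addition and
multiplication and are closed under positive existential definitions contain all recursively
enumerable predicates. -/

namespace Pool.Agent.V11234.PE

open Pool.Agent.Helper967.ArithDef Pool.Agent.Helper967.Dio

/-- A class of predicates on sequences of naturals closed under positive existential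
definability. -/
structure PC (D : ((ℕ → ℕ) → Prop) → Prop) : Prop where
  add : D (fun w => w 0 + w 1 = w 2)
  mul : D (fun w => w 0 * w 1 = w 2)
  one : D (fun w => w 0 = 1)
  and : ∀ {R S : (ℕ → ℕ) → Prop}, D R → D S → D (fun w => R w ∧ S w)
  ex : ∀ {R : (ℕ → ℕ) → Prop}, D R → D (fun w => ∃ a, R (cns a w))
  ren : ∀ {R : (ℕ → ℕ) → Prop} (ρ : ℕ → ℕ), D R → D (fun w => R (fun i => w (ρ i)))

namespace PC

variable {D : ((ℕ → ℕ) → Prop) → Prop} (h : PC D)
include h

set_option linter.unusedSectionVars false in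
theorem iff {R S : (ℕ → ℕ) → Prop} (hRS : ∀ w, R w ↔ S w) (hR : D R) : D S := by
  have : R = S := funext fun w => propext (hRS w)
  rwa [← this]

/-- existential quantification in curried form -/
theorem ex' {S : ℕ → (ℕ → ℕ) → Prop} (hR : D (fun w => S (w 0) (fun n => w (n + 1)))) :
    D (fun w => ∃ a, S a w) :=
  h.iff (fun w => by simp) (h.ex hR)

theorem eqv (i j : ℕ) : D (fun w => w i = w j) := by
  have h1 : D (fun w => w 0 + w 0 = w 0) := h.ren (fun _ => 0) h.add
  have h2 : D (fun w => w (i + 1) + w 0 = w (j + 1)) :=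
    h.ren (fun n => match n with | 0 => i + 1 | 1 => 0 | _ => j + 1) h.add
  refine h.iff (fun w => ?_) (h.ex (h.and h1 h2))
  constructor
  · rintro ⟨a, h1, h2⟩
    simp at h1 h2
    omega
  · intro hw
    exact ⟨0, by simp, by simp [hw]⟩

theorem tren {F : (ℕ → ℕ) → ℕ} (ρ : ℕ → ℕ) (hF : DT D F) : DT D (fun w => F (fun i => w (ρ i))) := by
  have := h.ren (fun n => match n with | 0 => 0 | n + 1 => ρ n + 1) hF
  exact this

theorem tvar (i : ℕ) : DT D (fun w => w i) := h.eqv 0 (i + 1)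

/-- substitute a term for variable 0 -/
theorem sub {R : ℕ → (ℕ → ℕ) → Prop} {F : (ℕ → ℕ) → ℕ} (hF : DT D F)
    (hR : D (fun w => R (w 0) (fun n => w (n + 1)))) : D (fun w => R (F w) w) :=
  h.iff (fun w => by simp) (h.ex' (S := fun a w => a = F w ∧ R a w) (h.and hF hR))

theorem app2 {R : ℕ → ℕ → Prop} {F G : (ℕ → ℕ) → ℕ} (hR : D (fun w => R (w 0) (w 1)))
    (hF : DT D F) (hG : DT D G) : D (fun w => R (F w) (G w)) := by
  refine h.sub (R := fun a w => R a (G w)) hF ?_
  refine h.sub (R := fun b w => R (w 0) b) (F := fun w => G (fun n => w (n + 1)))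
    (h.tren (fun n => n + 1) hG) ?_
  exact h.ren (fun n => match n with | 0 => 1 | _ => 0) hR

theorem app3 {R : ℕ → ℕ → ℕ → Prop} {F G H : (ℕ → ℕ) → ℕ} (hR : D (fun w => R (w 0) (w 1) (w 2)))
    (hF : DT D F) (hG : DT D G) (hH : DT D H) : D (fun w => R (F w) (G w) (H w)) := by
  refine h.sub (R := fun a w => R a (G w) (H w)) hF ?_
  refine h.sub (R := fun b w => R (w 0) b (H (fun n => w (n + 1))))
    (F := fun w => G (fun n => w (n + 1))) (h.tren (fun n => n + 1) hG) ?_
  refine h.sub (R := fun c w => R (w 1) (w 0) c)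
    (F := fun w => H (fun n => w (n + 2))) (h.tren (fun n => n + 2) hH) ?_
  exact h.ren (fun n => match n with | 0 => 2 | 1 => 1 | _ => 0) hR

theorem eq {F G : (ℕ → ℕ) → ℕ} (hF : DT D F) (hG : DT D G) : D (fun w => F w = G w) :=
  h.app2 (R := fun a b => a = b) (h.eqv 0 1) hF hG

theorem tadd {F G : (ℕ → ℕ) → ℕ} (hF : DT D F) (hG : DT D G) : DT D (fun w => F w + G w) :=
  h.app3 (R := fun a b c => c = a + b) (h.iff (fun w => by rw [eq_comm]) h.add)
    (h.tren (fun n => n + 1) hF) (h.tren (fun n => n + 1) hG) (h.tvar 0)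

theorem tmul {F G : (ℕ → ℕ) → ℕ} (hF : DT D F) (hG : DT D G) : DT D (fun w => F w * G w) :=
  h.app3 (R := fun a b c => c = a * b) (h.iff (fun w => by rw [eq_comm]) h.mul)
    (h.tren (fun n => n + 1) hF) (h.tren (fun n => n + 1) hG) (h.tvar 0)

theorem tzero : DT D (fun _ => 0) :=
  h.iff (fun w => by simp) (h.eq (h.tadd (h.tvar 0) (h.tvar 0)) (h.tvar 0))

theorem tone : DT D (fun _ => 1) := h.one

theorem tconst (n : ℕ) : DT D (fun _ => n) := by
  induction n with
  | zero => exact h.tzero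
  | succ n ih => exact h.tadd ih h.tone

theorem poly {γ : Type} (p : Poly γ) (e : γ → ℕ) : ∃ P Q : (ℕ → ℕ) → ℕ, DT D P ∧ DT D Q ∧
    ∀ w : ℕ → ℕ, p (fun g => w (e g)) = (P w : ℤ) - Q w := by
  refine Poly.induction (C := fun p => ∃ P Q : (ℕ → ℕ) → ℕ, DT D P ∧ DT D Q ∧
    ∀ w : ℕ → ℕ, p (fun g => w (e g)) = (P w : ℤ) - Q w) ?_ ?_ ?_ ?_ p
  · intro i
    exact ⟨_, _, h.tvar (e i), h.tzero, fun w => by simp⟩
  · intro n
    refine ⟨_, _, h.tconst n.toNat, h.tconst (-n).toNat, fun w => ?_⟩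
    rw [Poly.const_apply]
    omega
  · rintro f g ⟨P, Q, hP, hQ, hf⟩ ⟨P', Q', hP', hQ', hg⟩
    refine ⟨_, _, h.tadd hP hQ', h.tadd hQ hP', fun w => ?_⟩
    rw [Poly.sub_apply, hf, hg]
    push_cast
    ring
  · rintro f g ⟨P, Q, hP, hQ, hf⟩ ⟨P', Q', hP', hQ', hg⟩
    refine ⟨_, _, h.tadd (h.tmul hP hP') (h.tmul hQ hQ'), h.tadd (h.tmul hP hQ') (h.tmul hQ hP'),
      fun w => ?_⟩
    rw [Poly.mul_apply, hf, hg]
    push_cast
    ring

/-- `t 0, ..., t (k-1), w 0, w 1, ...` -/
def mix (k : ℕ) (t : Fin k → ℕ) (w : ℕ → ℕ) : ℕ → ℕ :=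
  fun n => if hn : n < k then t ⟨n, hn⟩ else w (n - k)

omit h in
theorem cns_mix (k : ℕ) (a : ℕ) (t : Fin k → ℕ) (w : ℕ → ℕ) :
    cns a (mix k t w) = mix (k + 1) (Fin.cons a t : Fin (k + 1) → ℕ) w := by
  funext n
  cases n with
  | zero => simp [mix]
  | succ n =>
    rw [cns_succ]
    unfold mix
    by_cases hn : n < k
    · rw [dif_pos hn, dif_pos (by omega : n + 1 < k + 1)]
      rfl
    · rw [dif_neg hn, dif_neg (by omega)]
      congr 1
      omega

theorem exk (k : ℕ) : ∀ {R : (ℕ → ℕ) → Prop}, D R →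
    D (fun w => ∃ t : Fin k → ℕ, R (mix k t w)) := by
  induction k with
  | zero =>
    intro R hR
    refine h.iff (fun w => ?_) hR
    have : ∀ t : Fin 0 → ℕ, mix 0 t w = w := fun t => by
      funext n
      simp [mix]
    constructor
    · intro hw
      exact ⟨Fin.elim0, by rw [this]; exact hw⟩
    · rintro ⟨t, ht⟩
      rwa [this] at ht
  | succ k ih =>
    intro R hR
    refine h.iff (fun w => ?_) (ih (h.ex hR))
    constructor
    · rintro ⟨t, a, hta⟩
      exact ⟨Fin.cons a t, by rw [← cns_mix]; exact hta⟩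
    · rintro ⟨t, ht⟩
      refine ⟨Fin.tail t, t 0, ?_⟩
      rw [cns_mix, Fin.cons_self_tail]
      exact ht

/-- Every recursively enumerable predicate is in the class. -/
theorem re {p : ℕ → Prop} (hp : REPred p) : D (fun w => p (w 0)) := by
  classical
  obtain ⟨δ, _, q, hq⟩ := finite_dummies (dprm hp)
  let k := Fintype.card δ
  let f : δ ≃ Fin k := Fintype.equivFin δ
  let e : Unit ⊕ δ → ℕ := Sum.elim (fun _ => k) (fun d => (f d : ℕ))
  obtain ⟨P, Q, hP, hQ, hPQ⟩ := h.poly q e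
  have h1 : D (fun w => q (fun g => w (e g)) = 0) := by
    refine h.iff (fun w => ?_) (h.eq hP hQ)
    rw [hPQ]
    omega
  refine h.iff (fun w => ?_) (h.exk k h1)
  have h2 : p (w 0) ↔ ∃ t : δ → ℕ, q (Sum.elim (fun _ => w 0) t) = 0 := by
    have := hq (fun _ => w 0)
    exact this
  rw [h2]
  have h3 : ∀ t : Fin k → ℕ, (fun g => mix k t w (e g)) = Sum.elim (fun _ => w 0) (fun d => t (f d)) := by
    intro t
    funext g
    rcases g with g | d
    · simp [e, mix]
    · simp [e, mix]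
  constructor
  · rintro ⟨t, ht⟩
    rw [h3] at ht
    exact ⟨_, ht⟩
  · rintro ⟨t, ht⟩
    refine ⟨fun i => t (f.symm i), ?_⟩
    rw [h3]
    simpa using ht

end PC

/-- The halting predicate is recursively enumerable. -/
theorem halt_re : REPred Halt := by
  have h : Partrec fun a : ℕ =>
      Nat.Partrec.Code.eval (Denumerable.ofNat Nat.Partrec.Code a) 0 :=
    Nat.Partrec.Code.eval_part.comp (Primrec.ofNat Nat.Partrec.Code).to_comp
      (Computable.const 0)
  exact h.dom_re

end Pool.Agent.V11234.PE
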