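import Mathlib
set_option autoImplicit false

/-! Definitions for MP_18cdfa_lc: finite signatures, ground terms, the recursive path ordering with
status over a partial precedence, and the existential fragment of its first-order theory. -/

namespace Pool.Agent.V11234.RPO

/-- A finite signature: function symbols `0, ..., n - 1` with arities. -/
structure Sig where
  n : ℕ
  ar : Fin n → ℕ

/-- Ground terms. -/
inductive Tm (F : Sig) : Type
  | app (f : Fin F.n) (ts : Fin (F.ar f) → Tm F) : Tm F

/-- The status of a function symbol. -/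
inductive Status
  | lex
  | mul

/-- `≈`: the congruence generated by permuting the arguments of symbols with status `mul`. -/
inductive Eqv {F : Sig} (st : Fin F.n → Status) : Tm F → Tm F → Prop
  | perm (f : Fin F.n) (ts : Fin (F.ar f) → Tm F) (σ : Equiv.Perm (Fin (F.ar f))) :
      st f = .mul → Eqv st (.app f ts) (.app f (fun i => ts (σ i)))
  | congr (f : Fin F.n) (ss ts : Fin (F.ar f) → Tm F) :
      (∀ i, Eqv st (ss i) (ts i)) → Eqv st (.app f ss) (.app f ts)
  | symm (s t : Tm F) : Eqv st s t → Eqv st t s
  | trans (s t u : Tm F) : Eqv st s t → Eqv st t u → Eqv st s u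

/-- The recursive path ordering `s > t` for a precedence (`prec f g` means `f ≻ g`) and a status
function. The constructors are the clauses 1 (`sub_gt`, `sub_eqv`), 2 (`prec`) and 3 (`lex`, `mul`)
of its definition. In the clause `mul`, the tuples `ss`, `ts` are compared as multisets: the
members of `ss` with index in `I` are cancelled against the members of `ts` with index in `J`
(modulo `≈`, by the bijection `e`), some member of `ss` is left, and each remaining member of `ts`
is smaller than a remaining member of `ss`. -/
inductive Gt {F : Sig} (prec : Fin F.n → Fin F.n → Prop) (st : Fin F.n → Status) :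
    Tm F → Tm F → Prop
  | sub_gt (f : Fin F.n) (ss : Fin (F.ar f) → Tm F) (i : Fin (F.ar f)) (t : Tm F) :
      Gt prec st (ss i) t → Gt prec st (.app f ss) t
  | sub_eqv (f : Fin F.n) (ss : Fin (F.ar f) → Tm F) (i : Fin (F.ar f)) (t : Tm F) :
      Eqv st (ss i) t → Gt prec st (.app f ss) t
  | prec (f g : Fin F.n) (ss : Fin (F.ar f) → Tm F) (ts : Fin (F.ar g) → Tm F) :
      prec f g → (∀ j, Gt prec st (.app f ss) (ts j)) → Gt prec st (.app f ss) (.app g ts)
  | lex (f : Fin F.n) (ss ts : Fin (F.ar f) → Tm F) (i : Fin (F.ar f)) : st f = .lex →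
      (∀ j, Gt prec st (.app f ss) (ts j)) →
      (∀ j, j < i → Eqv st (ss j) (ts j)) → Gt prec st (ss i) (ts i) →
      Gt prec st (.app f ss) (.app f ts)
  | mul (f : Fin F.n) (ss ts : Fin (F.ar f) → Tm F) (I J : Set (Fin (F.ar f)))
      (e c : Fin (F.ar f) → Fin (F.ar f)) : st f = .mul →
      (∀ j, Gt prec st (.app f ss) (ts j)) →
      Set.BijOn e I J → (∀ i ∈ I, Eqv st (ss i) (ts (e i))) → (∃ i, i ∉ I) →
      (∀ j, j ∉ J → c j ∉ I) → (∀ j, j ∉ J → Gt prec st (ss (c j)) (ts j)) →
      Gt prec st (.app f ss) (.app f ts)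

/-- Terms with variables `x_v`, `v : V`. -/
inductive Trm (F : Sig) (V : Type) : Type
  | var (v : V) : Trm F V
  | app (f : Fin F.n) (ts : Fin (F.ar f) → Trm F V) : Trm F V

/-- Quantifier-free formulas in the language with the symbols of `F`, equality and `>`. -/
inductive Fml (F : Sig) (V : Type) : Type
  | eq (s t : Trm F V) : Fml F V
  | gt (s t : Trm F V) : Fml F V
  | not (φ : Fml F V) : Fml F V
  | and (φ ψ : Fml F V) : Fml F V

/-- The value of a term in the algebra of ground terms. -/
def Trm.eval {F : Sig} {V : Type} (x : V → Tm F) : Trm F V → Tm F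
  | .var v => x v
  | .app f ts => .app f (fun i => (ts i).eval x)

/-- Truth of a quantifier-free formula in the structure of ground terms with the recursive path
ordering. -/
def Fml.Holds {F : Sig} (prec : Fin F.n → Fin F.n → Prop) (st : Fin F.n → Status) {V : Type}
    (x : V → Tm F) : Fml F V → Prop
  | .eq s t => s.eval x = t.eval x
  | .gt s t => Gt prec st (s.eval x) (t.eval x)
  | .not φ => ¬ φ.Holds prec st x
  | .and φ ψ => φ.Holds prec st x ∧ ψ.Holds prec st x

/-- Gödel number of a term with variables `x_0, x_1, ...`. -/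
def Trm.code {F : Sig} : Trm F ℕ → ℕ
  | .var v => Nat.pair 0 v
  | .app f ts => Nat.pair (f + 1) (Encodable.encode (List.ofFn fun i => (ts i).code))

/-- Gödel number of a quantifier-free formula. -/
def Fml.code {F : Sig} : Fml F ℕ → ℕ
  | .eq s t => Nat.pair 0 (Nat.pair s.code t.code)
  | .gt s t => Nat.pair 1 (Nat.pair s.code t.code)
  | .not φ => Nat.pair 2 φ.code
  | .and φ ψ => Nat.pair 3 (Nat.pair φ.code ψ.code)

/-- The existential fragment of the theory: the Gödel numbers of the quantifier-free formulas `φ`
for which the sentence `∃ x_0 x_1 ..., φ` is true. -/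
def ExTheory {F : Sig} (prec : Fin F.n → Fin F.n → Prop) (st : Fin F.n → Status) (n : ℕ) : Prop :=
  ∃ φ : Fml F ℕ, φ.code = n ∧ ∃ x : ℕ → Tm F, φ.Holds prec st x

/-- The signature with a constant `0` and the unary symbols `1`, `2`, `3`. -/
def F3 : Sig := ⟨4, ![0, 1, 1, 1]⟩

end Pool.Agent.V11234.RPO
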