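import Mathlib
set_option autoImplicit false

/-! Words over three letters and the subword relation. -/

namespace Pool.Agent.V11234.RPO

/-- words over the letters `0, 1, 2` -/
abbrev W := List (Fin 3)

theorem eq_of_count {u p : W} (h : u.Sublist p) (hc : ∀ l, p.count l ≤ u.count l) : u = p := by
  have h1 : u.Perm p := by
    rw [List.perm_iff_count]
    intro a
    exact le_antisymm (h.count_le a) (hc a)
  exact h.eq_of_length h1.length_eq

theorem eq_rep {l : Fin 3} {y : W} (h : ∀ l', l' ≠ l → l' ∉ y) : y = List.replicate y.length l := by
  rw [List.eq_replicate_iff]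
  refine ⟨rfl, fun b hb => ?_⟩
  by_contra hne
  exact h b hne hb

theorem count_iff {l : Fin 3} {x y : W} : y = List.replicate (x.count l) l ↔
    (∀ l', l' ≠ l → l' ∉ y) ∧ y.Sublist x ∧ ¬ (l :: y).Sublist x := by
  constructor
  · intro h
    refine ⟨fun l' hl' hm => ?_, ?_, ?_⟩
    · rw [h] at hm
      exact hl' (List.eq_of_mem_replicate hm)
    · rw [h, List.replicate_sublist_iff]
    · rw [h, ← List.replicate_succ, List.replicate_sublist_iff]
      omega
  · rintro ⟨h1, h2, h3⟩
    have h4 := eq_rep h1
    rw [h4, List.replicate_sublist_iff] at h2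
    rw [h4, ← List.replicate_succ, List.replicate_sublist_iff] at h3
    have : y.length = x.count l := by omega
    rw [← this]
    exact h4

theorem sep_inj {u l1 v v2 : W} (hu : (2 : Fin 3) ∉ u) (hl : (2 : Fin 3) ∉ l1)
    (h : u ++ 2 :: v = l1 ++ 2 :: v2) : u = l1 ∧ v = v2 := by
  induction u generalizing l1 with
  | nil =>
    cases l1 with
    | nil => simpa using h
    | cons a l1 =>
      simp only [List.nil_append, List.cons_append, List.cons.injEq] at h
      rw [← h.1] at hl
      simp at hl
  | cons a u ih =>
    cases l1 with
    | nil =>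
      simp only [List.nil_append, List.cons_append, List.cons.injEq] at h
      rw [h.1] at hu
      simp at hu
    | cons b l1 =>
      simp only [List.cons_append, List.cons.injEq] at h
      rw [List.mem_cons, not_or] at hu hl
      obtain ⟨h1, h2⟩ := ih hu.2 hl.2 h.2
      exact ⟨by rw [h.1, h1], h2⟩

theorem sep_sub {u v p q : W} (hu : (2 : Fin 3) ∉ u) (hp : (2 : Fin 3) ∉ p)
    (hq : (2 : Fin 3) ∉ q) :
    (u ++ 2 :: v).Sublist (p ++ 2 :: q) ↔ u.Sublist p ∧ v.Sublist q := by
  constructor
  · intro h
    rw [List.sublist_append_iff] at h
    obtain ⟨l1, l2, h1, h2, h3⟩ := h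
    have hl1 : (2 : Fin 3) ∉ l1 := fun hm => hp (h2.subset hm)
    rw [List.sublist_cons_iff] at h3
    rcases h3 with h3 | ⟨r, rfl, h3⟩
    · exfalso
      have : (2 : Fin 3) ∈ l1 ++ l2 := by
        rw [← h1]
        simp
      rw [List.mem_append] at this
      rcases this with this | this
      · exact hl1 this
      · exact hq (h3.subset this)
    · obtain ⟨rfl, rfl⟩ := sep_inj hu hl1 h1
      exact ⟨h2, h3⟩
  · rintro ⟨h1, h2⟩
    exact h1.append (h2.cons_cons 2)

theorem notMem_of_no22 {p q : W} (h : ¬ ([2, 2] : W).Sublist (p ++ 2 :: q)) :
    (2 : Fin 3) ∉ p ∧ (2 : Fin 3) ∉ q := by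
  constructor
  · intro hm
    apply h
    have h1 : ([2] : W).Sublist p := List.singleton_sublist.2 hm
    have h2 : ([2] : W).Sublist (2 :: q) := List.singleton_sublist.2 (by simp)
    exact h1.append h2
  · intro hm
    apply h
    have h1 : ([2] : W).Sublist q := List.singleton_sublist.2 hm
    exact (h1.cons_cons 2).trans (List.sublist_append_right _ _)

theorem count2_of_notMem {u : W} (h : (2 : Fin 3) ∉ u) : u.count 2 = 0 :=
  List.count_eq_zero_of_not_mem h

/-- `t = u#` -/
theorem hash_iff {u t : W} (hu : (2 : Fin 3) ∉ u) : t = u ++ [2] ↔
    ([2] : W).Sublist t ∧ ¬ ([2, 2] : W).Sublist t ∧ ¬ ([2, 0] : W).Sublist t ∧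
    ¬ ([2, 1] : W).Sublist t ∧ u.Sublist t ∧
    ∀ l : Fin 3, l ≠ 2 → t.count l = u.count l := by
  constructor
  · rintro rfl
    have key : ∀ l : Fin 3, ¬ ([2, l] : W).Sublist (u ++ [2]) := by
      intro l h
      have := (sep_sub (u := []) (v := [l]) (by simp) hu (by simp)).1 h
      simpa using this.2
    refine ⟨List.sublist_append_right _ _, key 2, key 0, key 1, List.sublist_append_left _ _, ?_⟩
    intro l hl
    rw [List.count_append, List.count_singleton]
    simp [Ne.symm hl]
  · rintro ⟨h1, h2, h3, h4, h5, h6⟩
    rw [List.singleton_sublist] at h1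
    obtain ⟨p, q, rfl⟩ := List.append_of_mem h1
    obtain ⟨hp, hq⟩ := notMem_of_no22 h2
    have hq0 : q = [] := by
      cases q with
      | nil => rfl
      | cons l q =>
        exfalso
        have h7 : ([2, l] : W).Sublist (p ++ 2 :: l :: q) := by
          refine List.Sublist.trans ?_ (List.sublist_append_right p _)
          exact List.Sublist.cons_cons 2 (List.Sublist.cons_cons l (List.nil_sublist q))
        fin_cases l
        · exact h3 h7
        · exact h4 h7
        · exact h2 h7
    subst hq0
    have h7 : u.Sublist p := by
      have := h5.filter (fun x => x ≠ 2)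
      rw [List.filter_append] at this
      have e1 : u.filter (fun x => x ≠ 2) = u := List.filter_eq_self.2 (by
        intro a ha
        simp only [ne_eq, decide_not, Bool.not_eq_eq_eq_not, Bool.not_true, decide_eq_false_iff_not]
        rintro rfl
        exact hu ha)
      have e2 : p.filter (fun x => x ≠ 2) = p := List.filter_eq_self.2 (by
        intro a ha
        simp only [ne_eq, decide_not, Bool.not_eq_eq_eq_not, Bool.not_true, decide_eq_false_iff_not]
        rintro rfl
        exact hp ha)
      rw [e1, e2] at this
      simpa using this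
    have h8 : u = p := by
      refine eq_of_count h7 fun l => ?_
      by_cases hl : l = 2
      · subst hl
        rw [count2_of_notMem hp]
        exact Nat.zero_le _
      · rw [← h6 l hl, List.count_append]
        omega
    rw [h8]

/-- concatenation -/
theorem conc_iff {u v w : W} (hu : (2 : Fin 3) ∉ u) (hv : (2 : Fin 3) ∉ v) : w = u ++ v ↔
    ∃ x : W, (u ++ [2]).Sublist x ∧ (2 :: v).Sublist x ∧ ¬ ([2, 2] : W).Sublist x ∧
    (∀ l : Fin 3, l ≠ 2 → ¬ (l :: (List.replicate (u.count l) l ++ [2])).Sublist x) ∧
    (∀ l : Fin 3, l ≠ 2 → ¬ (2 :: l :: List.replicate (v.count l) l).Sublist x) ∧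
    (2 : Fin 3) ∉ w ∧ w.Sublist x ∧ ∀ l : Fin 3, l ≠ 2 → w.count l = x.count l := by
  constructor
  · rintro rfl
    refine ⟨u ++ 2 :: v, ?_, ?_, ?_, ?_, ?_, ?_, ?_, ?_⟩
    · exact (sep_sub hu hu hv).2 ⟨List.Sublist.refl _, List.nil_sublist _⟩
    · exact (sep_sub (u := []) (by simp) hu hv).2 ⟨List.nil_sublist _, List.Sublist.refl _⟩
    · intro h
      have := ((sep_sub (u := []) (v := [2]) (by simp) hu hv).1 h).2
      exact hv (List.singleton_sublist.1 this)
    · intro l hl h
      have h1 : (l :: (List.replicate (u.count l) l ++ [2])) =
          (l :: List.replicate (u.count l) l) ++ 2 :: [] := rfl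
      rw [h1, sep_sub (by
        rw [← List.replicate_succ]
        intro hm
        exact hl (List.eq_of_mem_replicate hm).symm) hu hv, ← List.replicate_succ,
        List.replicate_sublist_iff] at h
      omega
    · intro l hl h
      have h1 : (2 :: l :: List.replicate (v.count l) l) =
          [] ++ 2 :: (l :: List.replicate (v.count l) l) := rfl
      rw [h1, sep_sub (by simp) hu hv, ← List.replicate_succ, List.replicate_sublist_iff] at h
      omega
    · rw [List.mem_append, not_or]
      exact ⟨hu, hv⟩
    · exact (List.Sublist.refl u).append (List.sublist_cons_self 2 v)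
    · intro l hl
      rw [List.count_append, List.count_append, List.count_cons_of_ne (Ne.symm hl)]
  · rintro ⟨x, h1, h2, h3, h4, h5, h6, h7, h8⟩
    have hx : (2 : Fin 3) ∈ x := h2.subset (by simp)
    obtain ⟨p, q, rfl⟩ := List.append_of_mem hx
    obtain ⟨hp, hq⟩ := notMem_of_no22 h3
    have hup := ((sep_sub hu hp hq).1 h1).1
    have hvq := ((sep_sub (u := []) (by simp) hp hq).1 h2).2
    have hu2 : u = p := by
      refine eq_of_count hup fun l => ?_
      by_cases hl : l = 2
      · subst hl
        rw [count2_of_notMem hp]
        exact Nat.zero_le _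
      · have := h4 l hl
        have h9 : (l :: (List.replicate (u.count l) l ++ [2])) =
            (l :: List.replicate (u.count l) l) ++ 2 :: [] := rfl
        rw [h9, sep_sub (by
          rw [← List.replicate_succ]
          intro hm
          exact hl (List.eq_of_mem_replicate hm).symm) hp hq, ← List.replicate_succ,
          List.replicate_sublist_iff] at this
        by_contra hlt
        exact this ⟨by omega, List.nil_sublist _⟩
    have hv2 : v = q := by
      refine eq_of_count hvq fun l => ?_
      by_cases hl : l = 2
      · subst hl
        rw [count2_of_notMem hq]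
        exact Nat.zero_le _
      · have := h5 l hl
        have h9 : (2 :: l :: List.replicate (v.count l) l) =
            [] ++ 2 :: (l :: List.replicate (v.count l) l) := rfl
        rw [h9, sep_sub (by simp) hp hq, ← List.replicate_succ,
          List.replicate_sublist_iff] at this
        by_contra hlt
        exact this ⟨List.nil_sublist _, by omega⟩
    subst hu2 hv2
    have h10 : w.Sublist (u ++ v) := by
      have := h7.filter (fun x => x ≠ 2)
      have e : ∀ z : W, (2 : Fin 3) ∉ z → z.filter (fun x => x ≠ 2) = z := fun z hz =>
        List.filter_eq_self.2 (by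
          intro a ha
          simp only [ne_eq, decide_not, Bool.not_eq_eq_eq_not, Bool.not_true,
            decide_eq_false_iff_not]
          rintro rfl
          exact hz ha)
      rw [List.filter_append, e w h6, e u hp] at this
      have e3 : (2 :: v : W).filter (fun x => x ≠ 2) = v := by
        rw [List.filter_cons_of_neg (by simp)]
        exact e v hq
      rwa [e3] at this
    refine eq_of_count h10 fun l => ?_
    by_cases hl : l = 2
    · subst hl
      rw [List.count_append, count2_of_notMem hp, count2_of_notMem hq]
      exact Nat.zero_le _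
    · rw [h8 l hl, List.count_append, List.count_append, List.count_cons_of_ne (Ne.symm hl)]

/-- the block `0^n 1` -/
def blk (n : ℕ) : W := List.replicate n 0 ++ [1]
/-- powers of a block -/
def pw (n k : ℕ) : W := (List.replicate k (blk n)).flatten

theorem pw_zero (n : ℕ) : pw n 0 = [] := rfl
theorem pw_succ (n k : ℕ) : pw n (k + 1) = blk n ++ pw n k := by
  unfold pw
  rw [List.replicate_succ, List.flatten_cons]

theorem pw_comm (n k : ℕ) : pw n k ++ blk n = blk n ++ pw n k := by
  induction k with
  | zero => simp [pw_zero]
  | succ k ih => rw [pw_succ, List.append_assoc, ih]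

theorem count0_blk (n : ℕ) : (blk n).count 0 = n := by
  unfold blk
  rw [List.count_append, List.count_replicate_self]
  simp

theorem count1_blk (n : ℕ) : (blk n).count 1 = 1 := by
  unfold blk
  rw [List.count_append, List.count_replicate]
  simp

theorem count0_pw (n k : ℕ) : (pw n k).count 0 = k * n := by
  induction k with
  | zero => simp [pw_zero]
  | succ k ih =>
    rw [pw_succ, List.count_append, ih, count0_blk]
    ring

theorem count1_pw (n k : ℕ) : (pw n k).count 1 = k := by
  induction k with
  | zero => simp [pw_zero]
  | succ k ih =>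
    rw [pw_succ, List.count_append, ih, count1_blk]
    ring

theorem two_notMem_blk (n : ℕ) : (2 : Fin 3) ∉ blk n := by
  unfold blk
  simp

theorem two_notMem_pw (n k : ℕ) : (2 : Fin 3) ∉ pw n k := by
  induction k with
  | zero => simp [pw_zero]
  | succ k ih =>
    rw [pw_succ, List.mem_append, not_or]
    exact ⟨two_notMem_blk n, ih⟩

theorem blk_length (n : ℕ) : (blk n).length = n + 1 := by simp [blk]

/-- a word that commutes with a block is a power of it -/
theorem comm_blk (n : ℕ) : ∀ (m : ℕ) (w : W), w.length = m → w ++ blk n = blk n ++ w →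
    ∃ k, w = pw n k := by
  intro m
  induction m using Nat.strong_induction_on with
  | _ m ih =>
    intro w hm h
    by_cases hw : w = []
    · exact ⟨0, by rw [hw, pw_zero]⟩
    by_cases hlen : w.length < (blk n).length
    · -- `w` is a proper nonempty prefix of the block
      exfalso
      rw [blk_length] at hlen
      have h1 : (w ++ blk n)[n]? = (blk n ++ w)[n]? := by rw [h]
      have hr : (blk n ++ w)[n]? = some 1 := by
        rw [List.getElem?_append_left (by rw [blk_length]; omega)]
        unfold blk
        rw [List.getElem?_append_right (by simp)]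
        simp
      have hl : (w ++ blk n)[n]? = some 0 := by
        rw [List.getElem?_append_right (by omega)]
        unfold blk
        have hpos : 0 < w.length := List.length_pos_iff.2 hw
        rw [List.getElem?_append_left (by rw [List.length_replicate]; omega)]
        rw [List.getElem?_replicate]
        rw [if_pos (by omega)]
      rw [hl, hr] at h1
      simp at h1
    · -- remove a block
      have hpre : blk n = w.take (blk n).length := by
        have := congrArg (List.take (blk n).length) h
        rw [List.take_append_of_le_length (by omega), List.take_append_of_le_length le_rfl,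
          List.take_length] at this
        exact this.symm
      obtain ⟨w', hw'⟩ : ∃ w', w = blk n ++ w' := by
        refine ⟨w.drop (blk n).length, ?_⟩
        conv_lhs => rw [← List.take_append_drop (blk n).length w]
        rw [← hpre]
      subst hw'
      rw [List.append_assoc, List.append_cancel_left_eq] at h
      rw [List.length_append, blk_length] at hm
      obtain ⟨k, hk⟩ := ih w'.length (by omega) w' rfl h
      exact ⟨k + 1, by rw [pw_succ, hk]⟩

end Pool.Agent.V11234.RPO
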