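import Mathlib
import Pool.Agent.V11234.RpoDefs
import Pool.Agent.V11234.RpoWords
import Pool.Agent.V11234.PEClass
set_option autoImplicit false

/-! The recursive path ordering over three incomparable unary symbols is the subword ordering, and
its existential theory is undecidable. -/

namespace Pool.Agent.V11234.RPO

open Pool.Agent.Helper967.ArithDef Pool.Agent.V11234.PE

/-! ### Words and ground terms -/

instance (f : Fin F3.n) : Subsingleton (Fin (F3.ar f)) := by
  fin_cases f <;> (dsimp [F3]; infer_instance)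

/-- the ground term of a word -/
def toTm : W → Tm F3
  | [] => .app (0 : Fin 4) (fun i : Fin 0 => i.elim0)
  | l :: w => .app (Fin.succ l : Fin 4) (fun _ => toTm w)

/-- the word of a ground term -/
def toW : Tm F3 → W
  | .app ⟨0, _⟩ _ => []
  | .app ⟨1, _⟩ ts => 0 :: toW (ts (0 : Fin 1))
  | .app ⟨2, _⟩ ts => 1 :: toW (ts (0 : Fin 1))
  | .app ⟨3, _⟩ ts => 2 :: toW (ts (0 : Fin 1))

theorem toW_toTm (w : W) : toW (toTm w) = w := by
  induction w with
  | nil => rfl
  | cons l w ih =>
    fin_cases l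
    · show 0 :: toW (toTm w) = _
      rw [ih]; rfl
    · show 1 :: toW (toTm w) = _
      rw [ih]; rfl
    · show 2 :: toW (toTm w) = _
      rw [ih]; rfl

theorem toTm_injective : Function.Injective toTm := fun a b h => by
  rw [← toW_toTm a, h, toW_toTm]

theorem toTm_surjective (t : Tm F3) : ∃ w, toTm w = t := by
  induction t with
  | app f ts ih =>
    match f, ts, ih with
    | ⟨0, _⟩, ts, _ =>
      refine ⟨[], ?_⟩
      show Tm.app _ _ = Tm.app _ _
      congr 1
      funext i
      exact Fin.elim0 (i : Fin 0)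
    | ⟨1, _⟩, ts, ih =>
      obtain ⟨w, hw⟩ := ih (0 : Fin 1)
      refine ⟨0 :: w, ?_⟩
      show Tm.app _ _ = Tm.app _ _
      congr 1
      funext i
      rw [hw]
      exact congrArg ts (Subsingleton.elim (α := Fin 1) _ _)
    | ⟨2, _⟩, ts, ih =>
      obtain ⟨w, hw⟩ := ih (0 : Fin 1)
      refine ⟨1 :: w, ?_⟩
      show Tm.app _ _ = Tm.app _ _
      congr 1
      funext i
      rw [hw]
      exact congrArg ts (Subsingleton.elim (α := Fin 1) _ _)
    | ⟨3, _⟩, ts, ih =>
      obtain ⟨w, hw⟩ := ih (0 : Fin 1)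
      refine ⟨2 :: w, ?_⟩
      show Tm.app _ _ = Tm.app _ _
      congr 1
      funext i
      rw [hw]
      exact congrArg ts (Subsingleton.elim (α := Fin 1) _ _)

variable (st : Fin F3.n → Status)

theorem eqv_refl (t : Tm F3) : Eqv st t t := by
  induction t with
  | app f ts ih => exact .congr f ts ts ih

theorem eq_of_eqv {s t : Tm F3} (h : Eqv st s t) : s = t := by
  induction h with
  | perm f ts σ _ =>
    congr 1
    funext i
    exact congrArg ts (Subsingleton.elim _ _)
  | congr f ss ts _ ih =>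
    congr 1
    funext i
    exact ih i
  | symm s t _ ih => exact ih.symm
  | trans s t u _ _ ih1 ih2 => exact ih1.trans ih2

/-- the word of a term with a given argument -/
theorem toW_app (f : Fin F3.n) (ts : Fin (F3.ar f) → Tm F3) (i : Fin (F3.ar f)) :
    ∃ l : Fin 3, f = (Fin.succ l : Fin 4) ∧ toW (.app f ts) = l :: toW (ts i) := by
  match f, ts, i with
  | ⟨0, _⟩, ts, i => exact Fin.elim0 (i : Fin 0)
  | ⟨1, _⟩, ts, i =>
    refine ⟨0, rfl, ?_⟩
    show 0 :: toW (ts (0 : Fin 1)) = _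
    congr 2
    exact congrArg ts (Subsingleton.elim (α := Fin 1) _ _)
  | ⟨2, _⟩, ts, i =>
    refine ⟨1, rfl, ?_⟩
    show 1 :: toW (ts (0 : Fin 1)) = _
    congr 2
    exact congrArg ts (Subsingleton.elim (α := Fin 1) _ _)
  | ⟨3, _⟩, ts, i =>
    refine ⟨2, rfl, ?_⟩
    show 2 :: toW (ts (0 : Fin 1)) = _
    congr 2
    exact congrArg ts (Subsingleton.elim (α := Fin 1) _ _)

/-- the empty precedence: all symbols are incomparable -/
def noPrec : Fin F3.n → Fin F3.n → Prop := fun _ _ => False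

theorem sub_of_gt {s t : Tm F3} (h : Gt noPrec st s t) :
    (toW t).Sublist (toW s) ∧ (toW t).length < (toW s).length := by
  induction h with
  | sub_gt f ss i t _ ih =>
    obtain ⟨l, -, hl⟩ := toW_app f ss i
    rw [hl]
    exact ⟨ih.1.cons _, by simp; omega⟩
  | sub_eqv f ss i t h =>
    obtain ⟨l, -, hl⟩ := toW_app f ss i
    rw [hl, eq_of_eqv st h]
    exact ⟨List.sublist_cons_self _ _, by simp⟩
  | prec f g ss ts h => exact h.elim
  | lex f ss ts i _ _ _ _ _ ih =>
    obtain ⟨l, h1, hl⟩ := toW_app f ss i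
    obtain ⟨l', h2, hl'⟩ := toW_app f ts i
    have : l = l' := Fin.succ_injective _ (h1.symm.trans h2)
    subst this
    rw [hl, hl']
    exact ⟨ih.1.cons_cons _, by simp; omega⟩
  | mul f ss ts I J e c _ _ he _ hI _ _ _ ih =>
    obtain ⟨i, hi⟩ := hI
    have hIe : I = ∅ := by
      ext j
      rw [Subsingleton.elim j i]
      simp [hi]
    have hJ : i ∉ J := by
      intro hiJ
      obtain ⟨j, hj, -⟩ := he.surjOn hiJ
      rw [hIe] at hj
      exact hj
    have h3 := ih i hJ
    rw [Subsingleton.elim (c i) i] at h3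
    obtain ⟨l, h1, hl⟩ := toW_app f ss i
    obtain ⟨l', h2, hl'⟩ := toW_app f ts i
    have : l = l' := Fin.succ_injective _ (h1.symm.trans h2)
    subst this
    rw [hl, hl']
    exact ⟨h3.1.cons_cons _, by simp; omega⟩

/-- an argument position of a letter -/
def ix (l : Fin 3) : Fin (F3.ar (Fin.succ l : Fin 4)) := by
  refine ⟨0, ?_⟩
  fin_cases l <;> (simp [F3])

theorem gt_of_sub {v u : W} (h : v.Sublist u) :
    v.length < u.length → Gt noPrec st (toTm u) (toTm v) := by
  induction h with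
  | slnil => intro h; simp at h
  | @cons v u a h ih =>
    intro _
    by_cases hvu : v = u
    · subst hvu
      exact .sub_eqv _ _ (ix a) _ (eqv_refl st _)
    · have h1 : v.length < u.length :=
        lt_of_le_of_ne h.length_le fun he => hvu (h.eq_of_length he)
      exact .sub_gt _ _ (ix a) _ (ih h1)
  | @cons_cons v u a h ih =>
    intro hlen
    have h1 : v.length < u.length := by simpa using hlen
    have h2 := ih h1
    have h3 : Gt noPrec st (toTm (a :: u)) (toTm v) := .sub_gt _ _ (ix a) _ h2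
    cases hs : st (Fin.succ a : Fin 4) with
    | lex =>
      exact .lex _ _ _ (ix a) hs (fun _ => h3) (fun j hj => by
        have hj2 : (j : ℕ) < 0 := hj
        exact absurd hj2 (Nat.not_lt_zero _)) h2
    | mul =>
      exact .mul _ _ _ ∅ ∅ id id hs (fun _ => h3) (Set.bijOn_empty _) (fun _ hi => hi.elim)
        ⟨ix a, fun hi => hi⟩ (fun _ _ hi => hi) (fun _ _ => h2)

/-- On words the recursive path ordering is the proper subword relation. -/
theorem gt_iff (u v : W) : Gt noPrec st (toTm u) (toTm v) ↔ v.Sublist u ∧ v.length < u.length := by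
  constructor
  · intro h
    have := sub_of_gt st h
    rwa [toW_toTm, toW_toTm] at this
  · rintro ⟨h1, h2⟩
    exact gt_of_sub st h1 h2

/-! ### Existentially definable predicates on words -/

/-- The class of existentially definable predicates. -/
def E (R : (ℕ → W) → Prop) : Prop :=
  ∃ φ : Fml F3 (ℕ ⊕ ℕ), ∀ v : ℕ → W, R v ↔
    ∃ y : ℕ → W, φ.Holds noPrec st (fun s => toTm (Sum.elim v y s))

/-- definable by a term -/
def TD (F : (ℕ → W) → W) : Prop :=
  ∃ t : Trm F3 (ℕ ⊕ ℕ), ∀ v y : ℕ → W, t.eval (fun s => toTm (Sum.elim v y s)) = toTm (F v)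

theorem TD.var (i : ℕ) : TD (fun v => v i) := ⟨.var (.inl i), fun _ _ => rfl⟩

theorem TD.nil : TD (fun _ => []) :=
  ⟨.app (0 : Fin 4) (fun i : Fin 0 => i.elim0), fun v y => by
    show Tm.app _ _ = Tm.app _ _
    congr 1
    funext i
    exact Fin.elim0 (i : Fin 0)⟩

theorem TD.cons (l : Fin 3) {F : (ℕ → W) → W} (h : TD F) : TD (fun v => l :: F v) := by
  obtain ⟨t, ht⟩ := h
  refine ⟨.app (Fin.succ l : Fin 4) (fun _ => t), fun v y => ?_⟩
  show Tm.app _ _ = Tm.app _ _
  congr 1
  funext i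
  exact ht v y

theorem TD.const (w : W) : TD (fun _ => w) := by
  induction w with
  | nil => exact TD.nil
  | cons l w ih => exact TD.cons l ih

/-- renaming in terms -/
def Trm.map {V V' : Type} (ρ : V → V') : Trm F3 V → Trm F3 V'
  | .var v => .var (ρ v)
  | .app f ts => .app f (fun i => (ts i).map ρ)

theorem Trm.eval_map {V V' : Type} (ρ : V → V') (x : V' → Tm F3) (t : Trm F3 V) :
    (t.map ρ).eval x = t.eval (fun v => x (ρ v)) := by
  induction t with
  | var v => rfl
  | app f ts ih =>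
    show Tm.app _ _ = Tm.app _ _
    congr 1
    funext i
    exact ih i

/-- renaming in formulas -/
def Fml.map {V V' : Type} (ρ : V → V') : Fml F3 V → Fml F3 V'
  | .eq s t => .eq (s.map ρ) (t.map ρ)
  | .gt s t => .gt (s.map ρ) (t.map ρ)
  | .not φ => .not (φ.map ρ)
  | .and φ ψ => .and (φ.map ρ) (ψ.map ρ)

theorem Fml.holds_map {V V' : Type} (ρ : V → V') (x : V' → Tm F3) (φ : Fml F3 V) :
    (φ.map ρ).Holds noPrec st x ↔ φ.Holds noPrec st (fun v => x (ρ v)) := by
  induction φ with
  | eq s t => simp only [Fml.map, Fml.Holds, Trm.eval_map]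
  | gt s t => simp only [Fml.map, Fml.Holds, Trm.eval_map]
  | not φ ih => simp only [Fml.map, Fml.Holds, ih]
  | and φ ψ ih1 ih2 => simp only [Fml.map, Fml.Holds, ih1, ih2]

namespace E

variable {st}

theorem iff {R S : (ℕ → W) → Prop} (h : ∀ v, R v ↔ S v) (hR : E st R) : E st S := by
  have : R = S := funext fun v => propext (h v)
  rwa [← this]

theorem eq {F G : (ℕ → W) → W} (hF : TD F) (hG : TD G) : E st (fun v => F v = G v) := by
  obtain ⟨s, hs⟩ := hF
  obtain ⟨t, ht⟩ := hG
  refine ⟨.eq s t, fun v => ?_⟩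
  simp only [Fml.Holds, hs, ht]
  exact ⟨fun h => ⟨fun _ => [], by rw [h]⟩, fun ⟨_, h⟩ => toTm_injective h⟩

theorem le {F G : (ℕ → W) → W} (hF : TD F) (hG : TD G) : E st (fun v => (F v).Sublist (G v)) := by
  obtain ⟨s, hs⟩ := hF
  obtain ⟨t, ht⟩ := hG
  refine ⟨.not (.and (.not (.eq s t)) (.not (.gt t s))), fun v => ?_⟩
  simp only [Fml.Holds, hs, ht, gt_iff]
  constructor
  · intro h
    refine ⟨fun _ => [], ?_⟩
    rintro ⟨h1, h2⟩
    by_cases he : F v = G v
    · exact h1 (by rw [he])
    · exact h2 ⟨h, lt_of_le_of_ne h.length_le fun h3 => he (h.eq_of_length h3)⟩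
  · rintro ⟨_, h⟩
    by_contra hn
    apply h
    exact ⟨fun h1 => hn (by rw [toTm_injective h1]), fun h2 => hn h2.1⟩

theorem nle {F G : (ℕ → W) → W} (hF : TD F) (hG : TD G) :
    E st (fun v => ¬ (F v).Sublist (G v)) := by
  obtain ⟨s, hs⟩ := hF
  obtain ⟨t, ht⟩ := hG
  refine ⟨.and (.not (.eq s t)) (.not (.gt t s)), fun v => ?_⟩
  simp only [Fml.Holds, hs, ht, gt_iff]
  constructor
  · intro hn
    exact ⟨fun _ => [], fun h1 => hn (by rw [toTm_injective h1]), fun h2 => hn h2.1⟩
  · rintro ⟨_, h1, h2⟩ h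
    by_cases he : F v = G v
    · exact h1 (by rw [he])
    · exact h2 ⟨h, lt_of_le_of_ne h.length_le fun h3 => he (h.eq_of_length h3)⟩

theorem tt : E st (fun _ => True) := iff (fun _ => by simp) (eq TD.nil TD.nil)
theorem ff : E st (fun _ => False) := iff (fun _ => by simp) (eq TD.nil (TD.cons 0 TD.nil))

theorem and {R S : (ℕ → W) → Prop} (hR : E st R) (hS : E st S) : E st (fun v => R v ∧ S v) := by
  obtain ⟨φ, hφ⟩ := hR
  obtain ⟨ψ, hψ⟩ := hS
  refine ⟨.and (φ.map (Sum.map id (fun n => 2 * n))) (ψ.map (Sum.map id (fun n => 2 * n + 1))),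
    fun v => ?_⟩
  simp only [Fml.Holds, Fml.holds_map]
  have e1 : ∀ y : ℕ → W, (fun s : ℕ ⊕ ℕ => toTm (Sum.elim v y (Sum.map id (fun n => 2 * n) s))) =
      fun s => toTm (Sum.elim v (fun n => y (2 * n)) s) := by
    intro y; funext s; rcases s with s | s <;> rfl
  have e2 : ∀ y : ℕ → W,
      (fun s : ℕ ⊕ ℕ => toTm (Sum.elim v y (Sum.map id (fun n => 2 * n + 1) s))) =
      fun s => toTm (Sum.elim v (fun n => y (2 * n + 1)) s) := by
    intro y; funext s; rcases s with s | s <;> rfl
  simp only [e1, e2]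
  rw [hφ, hψ]
  constructor
  · rintro ⟨⟨y, hy⟩, z, hz⟩
    refine ⟨fun n => if n % 2 = 0 then y (n / 2) else z (n / 2), ?_, ?_⟩
    · have e : (fun n => (fun n : ℕ => if n % 2 = 0 then y (n / 2) else z (n / 2)) (2 * n)) = y := by
        funext n
        show (if (2 * n) % 2 = 0 then y (2 * n / 2) else z (2 * n / 2)) = y n
        rw [if_pos (by omega), show 2 * n / 2 = n by omega]
      rw [e]
      exact hy
    · have e : (fun n => (fun n : ℕ => if n % 2 = 0 then y (n / 2) else z (n / 2)) (2 * n + 1)) = z := by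
        funext n
        show (if (2 * n + 1) % 2 = 0 then y ((2 * n + 1) / 2) else z ((2 * n + 1) / 2)) = z n
        rw [if_neg (by omega), show (2 * n + 1) / 2 = n by omega]
      rw [e]
      exact hz
  · rintro ⟨y, h1, h2⟩
    exact ⟨⟨_, h1⟩, _, h2⟩

theorem ex {S : W → (ℕ → W) → Prop} (hS : E st (fun v => S (v 0) (fun n => v (n + 1)))) :
    E st (fun v => ∃ a, S a v) := by
  obtain ⟨φ, hφ⟩ := hS
  let ρ : ℕ ⊕ ℕ → ℕ ⊕ ℕ := fun s => match s with
    | .inl 0 => .inr 0
    | .inl (n + 1) => .inl n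
    | .inr n => .inr (n + 1)
  refine ⟨φ.map ρ, fun v => ?_⟩
  simp only [Fml.holds_map]
  have e1 : ∀ y : ℕ → W, (fun s : ℕ ⊕ ℕ => toTm (Sum.elim v y (ρ s))) =
      fun s => toTm (Sum.elim (cns (y 0) v) (fun n => y (n + 1)) s) := by
    intro y
    funext s
    rcases s with s | s
    · cases s <;> rfl
    · rfl
  simp only [e1]
  constructor
  · rintro ⟨a, ha⟩
    obtain ⟨y, hy⟩ := (hφ (cns a v)).1 (by simpa using ha)
    exact ⟨cns a y, hy⟩
  · rintro ⟨y, hy⟩
    exact ⟨y 0, by simpa using (hφ (cns (y 0) v)).2 ⟨_, hy⟩⟩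

theorem ren {R : (ℕ → W) → Prop} (ρ : ℕ → ℕ) (hR : E st R) :
    E st (fun v => R (fun n => v (ρ n))) := by
  obtain ⟨φ, hφ⟩ := hR
  refine ⟨φ.map (Sum.map ρ id), fun v => ?_⟩
  simp only [Fml.holds_map]
  rw [hφ]
  have e1 : ∀ y : ℕ → W, (fun s : ℕ ⊕ ℕ => toTm (Sum.elim v y (Sum.map ρ id s))) =
      fun s => toTm (Sum.elim (fun n => v (ρ n)) y s) := by
    intro y; funext s; rcases s with s | s <;> rfl
  simp only [e1]

theorem all3 {R : Fin 3 → (ℕ → W) → Prop} (h : ∀ l, E st (R l)) : E st (fun v => ∀ l, R l v) :=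
  iff (fun v => by simp [Fin.forall_fin_succ]) (and (h 0) (and (h 1) (h 2)))

theorem imp {p : Prop} {R : (ℕ → W) → Prop} (h : E st R) : E st (fun v => p → R v) := by
  by_cases hp : p
  · exact iff (fun v => by simp [hp]) h
  · exact iff (fun v => by simp [hp]) tt

theorem notMem (l : Fin 3) (i : ℕ) : E st (fun v => l ∉ v i) :=
  iff (fun v => by rw [List.singleton_sublist]) (nle (TD.const [l]) (TD.var i))

/-- `v j = l^(number of l in v i)` -/
theorem count (l : Fin 3) (i j : ℕ) :
    E st (fun v => v j = List.replicate ((v i).count l) l) :=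
  iff (fun v => (count_iff (l := l) (x := v i) (y := v j)).symm)
    (and (all3 fun l' => imp (notMem l' j)) (and (le (TD.var j) (TD.var i))
      (nle (TD.cons l (TD.var j)) (TD.var i))))

/-- equal numbers of the letter `l` -/
theorem countEq (l : Fin 3) (i j : ℕ) : E st (fun v => (v i).count l = (v j).count l) := by
  refine iff (fun v => ?_) (ex (S := fun a v => a = List.replicate ((v i).count l) l ∧
    a = List.replicate ((v j).count l) l) (and (count l (i + 1) 0) (count l (j + 1) 0)))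
  constructor
  · rintro ⟨a, h1, h2⟩
    have := congrArg List.length (h1.symm.trans h2)
    simpa using this
  · intro h
    exact ⟨_, rfl, by rw [h]⟩

/-- `v j = v i #` -/
theorem hash (i j : ℕ) : E st (fun v => 2 ∉ v i ∧ v j = v i ++ [2]) := by
  refine iff (fun v => and_congr_right fun h => (hash_iff (t := v j) h).symm) ?_
  exact and (notMem 2 i) (and (le (TD.const [2]) (TD.var j)) (and (nle (TD.const [2, 2]) (TD.var j))
    (and (nle (TD.const [2, 0]) (TD.var j)) (and (nle (TD.const [2, 1]) (TD.var j))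
      (and (le (TD.var i) (TD.var j)) (all3 fun l => imp (countEq l j i)))))))

theorem two_notMem_rep {l : Fin 3} (hl : l ≠ 2) (n : ℕ) : (2 : Fin 3) ∉ List.replicate n l := by
  intro h
  exact hl (List.eq_of_mem_replicate h).symm

/-- concatenation -/
theorem conc (i j k : ℕ) : E st (fun v => (2 ∉ v i ∧ 2 ∉ v j) ∧ v k = v i ++ v j) := by
  refine iff (R := fun v => (2 ∉ v i ∧ 2 ∉ v j) ∧ ∃ x, (∃ t, (2 ∉ v i ∧ t = v i ++ [2]) ∧ t.Sublist x) ∧
    (2 :: v j).Sublist x ∧ ¬ ([2, 2] : W).Sublist x ∧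
    (∀ l : Fin 3, l ≠ 2 → ∃ s, (∃ y, y = List.replicate ((v i).count l) l ∧
      2 ∉ y ∧ s = y ++ [2]) ∧ ¬ (l :: s).Sublist x) ∧
    (∀ l : Fin 3, l ≠ 2 → ∃ y, y = List.replicate ((v j).count l) l ∧ ¬ (2 :: l :: y).Sublist x) ∧
    (2 : Fin 3) ∉ v k ∧ (v k).Sublist x ∧ ∀ l : Fin 3, l ≠ 2 → (v k).count l = x.count l)
    (fun v => and_congr_right fun h => Iff.trans ?_ (conc_iff (w := v k) h.1 h.2).symm) ?_
  · refine exists_congr fun x => and_congr ?_ (and_congr Iff.rfl (and_congr Iff.rfl (and_congr ?_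
      (and_congr ?_ Iff.rfl))))
    · constructor
      · rintro ⟨t, ⟨-, rfl⟩, h2⟩
        exact h2
      · intro h2
        exact ⟨_, ⟨h.1, rfl⟩, h2⟩
    · refine forall_congr' fun l => forall_congr' fun hl => ?_
      constructor
      · rintro ⟨s, ⟨y, rfl, -, rfl⟩, h2⟩
        exact h2
      · intro h2
        exact ⟨_, ⟨_, rfl, two_notMem_rep hl _, rfl⟩, h2⟩
    · refine forall_congr' fun l => forall_congr' fun hl => ?_
      constructor
      · rintro ⟨y, rfl, h2⟩
        exact h2
      · intro h2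
        exact ⟨_, rfl, h2⟩
  · refine and (and (notMem 2 i) (notMem 2 j)) (ex (and ?_ (and (le (TD.cons 2 (TD.var (j + 1)))
      (TD.var 0)) (and (nle (TD.const [2, 2]) (TD.var 0)) (and ?_ (and ?_ (and (notMem 2 (k + 1))
      (and (le (TD.var (k + 1)) (TD.var 0)) (all3 fun l => imp (countEq l (k + 1) 0))))))))))
    · exact ex (and (hash (i + 2) 0) (le (TD.var 0) (TD.var 1)))
    · exact all3 fun l => imp (ex (and (ex (and (count l (i + 3) 0) (hash 0 1)))
        (nle (TD.cons l (TD.var 0)) (TD.var 1))))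
    · exact all3 fun l => imp (ex (and (count l (j + 2) 0)
        (nle (TD.cons 2 (TD.cons l (TD.var 0))) (TD.var 1))))

/-- power of a block -/
theorem pow (i j : ℕ) : E st (fun v => 2 ∉ v i ∧ v i ++ v j = v j ++ v i ∧ 2 ∉ v j) := by
  refine iff (fun v => ?_) (ex (S := fun a v => ((2 ∉ v i ∧ 2 ∉ v j) ∧ a = v i ++ v j) ∧
    ((2 ∉ v j ∧ 2 ∉ v i) ∧ a = v j ++ v i)) (and (conc (i + 1) (j + 1) 0) (conc (j + 1) (i + 1) 0)))
  constructor
  · rintro ⟨a, ⟨h1, rfl⟩, -, h2⟩
    exact ⟨h1.1, h2, h1.2⟩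
  · rintro ⟨h1, h2, h3⟩
    exact ⟨_, ⟨⟨h1, h3⟩, rfl⟩, ⟨h3, h1⟩, h2⟩

end E

/-! ### Numbers -/

/-- the word of a number -/
def num (n : ℕ) : W := List.replicate n 0

theorem two_notMem_num (n : ℕ) : (2 : Fin 3) ∉ num n := E.two_notMem_rep (by decide) n

theorem num_injective : Function.Injective num := fun a b h => by
  have := congrArg List.length h
  simpa [num] using this

theorem count_num (n : ℕ) : (num n).count 0 = n := by simp [num]

/-- Existentially definable predicates on numbers. -/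
def NE (R : (ℕ → ℕ) → Prop) : Prop :=
  ∃ S : (ℕ → W) → Prop, E st S ∧ ∀ w : ℕ → ℕ, S (fun n => num (w n)) ↔ R w

/-- multiplication of numbers -/
def MulW (x y z : W) : Prop :=
  ∃ p w g : W, (∃ b, b = [1] ∧ (2 ∉ y ∧ 2 ∉ b) ∧ p = y ++ b) ∧
    (2 ∉ w ∧ w ++ p = p ++ w ∧ 2 ∉ p) ∧
    (∃ d, d = [0, 1] ∧ 2 ∉ g ∧ g ++ d = d ++ g ∧ 2 ∉ d) ∧
    x = List.replicate (g.count 0) 0 ∧ w.count 1 = g.count 1 ∧ z = List.replicate (w.count 0) 0

theorem mulW_iff (a b c : ℕ) : MulW (num a) (num b) (num c) ↔ a * b = c := by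
  constructor
  · rintro ⟨p, w, g, ⟨_, rfl, -, hp⟩, ⟨-, hw, -⟩, ⟨_, rfl, -, hg, -⟩, hx, hcount, hz⟩
    have hp2 : p = blk b := hp
    subst hp2
    obtain ⟨k, hk⟩ := comm_blk b _ w rfl hw
    obtain ⟨m, hm⟩ := comm_blk 1 _ g rfl hg
    subst hk hm
    rw [count0_pw] at hx hz
    rw [count1_pw, count1_pw] at hcount
    have h1 : a = m * 1 := num_injective hx
    have h2 : c = k * b := num_injective hz
    rw [h1, h2, hcount, mul_one]
  · rintro rfl
    refine ⟨blk b, pw b a, pw 1 a, ⟨_, rfl, ⟨two_notMem_num b, by decide⟩, rfl⟩,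
      ⟨two_notMem_pw b a, pw_comm b a, two_notMem_blk b⟩,
      ⟨_, rfl, two_notMem_pw 1 a, pw_comm 1 a, by decide⟩, ?_, ?_, ?_⟩
    · rw [count0_pw, mul_one]; rfl
    · rw [count1_pw, count1_pw]
    · rw [count0_pw]; rfl

theorem e_mulW : E st (fun v => MulW (v 0) (v 1) (v 2)) := by
  unfold MulW
  refine E.ex (E.ex (E.ex (E.and ?_ (E.and (E.pow 1 2) (E.and ?_ (E.and (E.count 0 0 3)
    (E.and (E.countEq 1 1 0) (E.count 0 1 5))))))))
  · exact E.ex (E.and (E.eq (TD.var 0) (TD.const [1])) (E.conc 5 0 3))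
  · exact E.ex (E.and (E.eq (TD.var 0) (TD.const [0, 1])) (E.pow 1 0))

theorem pc : PC (NE st) where
  add := by
    refine ⟨_, E.conc 0 1 2, fun w => ?_⟩
    constructor
    · rintro ⟨-, h⟩
      have := congrArg List.length h
      simp only [num, List.length_append, List.length_replicate] at this
      exact this.symm
    · intro h
      refine ⟨⟨two_notMem_num _, two_notMem_num _⟩, ?_⟩
      show num _ = num _ ++ num _
      unfold num
      rw [← h, List.replicate_add]
  mul := ⟨_, e_mulW st, fun w => mulW_iff _ _ _⟩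
  one := ⟨fun v => v 0 = [0], E.eq (TD.var 0) (TD.const [0]), fun w => by
    show num _ = num 1 ↔ _
    exact num_injective.eq_iff⟩
  and := by
    rintro R S ⟨R', hR, hR'⟩ ⟨S', hS, hS'⟩
    exact ⟨_, E.and hR hS, fun w => by rw [hR', hS']⟩
  ex := by
    rintro R ⟨R', hR, hR'⟩
    refine ⟨fun v => ∃ a : W, a = List.replicate (a.count 0) 0 ∧ R' (cns a v),
      E.ex (S := fun a v => a = List.replicate (a.count 0) 0 ∧ R' (cns a v))
        (E.and (E.count 0 0 0) (E.iff (fun v => by rw [cns_eta]) hR)), fun w => ?_⟩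
    constructor
    · rintro ⟨a, ha, hR2⟩
      refine ⟨a.count 0, ?_⟩
      rw [← hR']
      have : (fun n => num (cns (a.count 0) w n)) = cns a (fun n => num (w n)) := by
        funext n
        cases n with
        | zero => exact ha.symm
        | succ n => rfl
      rw [this]
      exact hR2
    · rintro ⟨a, ha⟩
      refine ⟨num a, ?_, ?_⟩
      · rw [count_num]; rfl
      · rw [← hR'] at ha
        have : (fun n => num (cns a w n)) = cns (num a) (fun n => num (w n)) := by
          funext n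
          cases n <;> rfl
        rw [← this]
        exact ha
  ren := by
    rintro R ρ ⟨R', hR, hR'⟩
    exact ⟨_, E.ren ρ hR, fun w => hR' _⟩

/-! ### Undecidability -/

/-- the numeral `1(1(...(0)))` as a term -/
def numT {V : Type} : ℕ → Trm F3 V
  | 0 => .app (0 : Fin 4) (fun i : Fin 0 => i.elim0)
  | n + 1 => .app (1 : Fin 4) (fun _ => numT n)

theorem eval_numT {V : Type} (n : ℕ) (x : V → Tm F3) : (numT n).eval x = toTm (num n) := by
  induction n with
  | zero =>
    show Tm.app _ _ = Tm.app _ _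
    congr 1
    funext i
    exact Fin.elim0 (i : Fin 0)
  | succ n ih =>
    show Tm.app _ _ = Tm.app _ _
    congr 1
    funext i
    exact ih

theorem primrec_numT : Primrec (fun n => (numT n : Trm F3 ℕ).code) := by
  have h0 : (numT 0 : Trm F3 ℕ).code = Nat.pair 1 0 := rfl
  have h1 : ∀ n, (numT (n + 1) : Trm F3 ℕ).code =
      Nat.pair 2 (Nat.pair (numT n : Trm F3 ℕ).code 0 + 1) := fun n => rfl
  have : (fun n => (numT n : Trm F3 ℕ).code) = (fun n => Nat.rec (Nat.pair 1 0)
      (fun _ c => Nat.pair 2 (Nat.pair c 0 + 1)) n) := by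
    funext n
    induction n with
    | zero => exact h0
    | succ n ih => rw [h1, ih]
  rw [this]
  refine Primrec.nat_rec₁ _ ?_
  exact Primrec₂.natPair.comp (Primrec.const 2)
    (Primrec.succ.comp (Primrec₂.natPair.comp Primrec.snd (Primrec.const 0)))

theorem Trm.code_injective (s t : Trm F3 ℕ) (h : s.code = t.code) : s = t := by
  induction s generalizing t with
  | var v =>
    cases t with
    | var v' =>
      simp only [Trm.code, Nat.pair_eq_pair, true_and] at h
      rw [h]
    | app g ts => simp [Trm.code, Nat.pair_eq_pair] at h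
  | app f ss ih =>
    cases t with
    | var v' => simp [Trm.code, Nat.pair_eq_pair] at h
    | app g ts =>
      simp only [Trm.code, Nat.pair_eq_pair] at h
      obtain ⟨h1, h2⟩ := h
      have hfg : f = g := Fin.ext (by omega)
      subst hfg
      have h3 := List.ofFn_injective (Encodable.encode_injective h2)
      congr 1
      funext i
      exact ih i _ (congrFun h3 i)

theorem Fml.code_injective (φ ψ : Fml F3 ℕ) (h : φ.code = ψ.code) : φ = ψ := by
  induction φ generalizing ψ with
  | eq s t =>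
    cases ψ with
    | eq s' t' =>
      simp only [Fml.code, Nat.pair_eq_pair, true_and] at h
      rw [Trm.code_injective _ _ h.1, Trm.code_injective _ _ h.2]
    | gt s' t' => simp [Fml.code, Nat.pair_eq_pair] at h
    | not ψ => simp [Fml.code, Nat.pair_eq_pair] at h
    | and ψ ψ' => simp [Fml.code, Nat.pair_eq_pair] at h
  | gt s t =>
    cases ψ with
    | eq s' t' => simp [Fml.code, Nat.pair_eq_pair] at h
    | gt s' t' =>
      simp only [Fml.code, Nat.pair_eq_pair, true_and] at h
      rw [Trm.code_injective _ _ h.1, Trm.code_injective _ _ h.2]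
    | not ψ => simp [Fml.code, Nat.pair_eq_pair] at h
    | and ψ ψ' => simp [Fml.code, Nat.pair_eq_pair] at h
  | not φ ih =>
    cases ψ with
    | eq s' t' => simp [Fml.code, Nat.pair_eq_pair] at h
    | gt s' t' => simp [Fml.code, Nat.pair_eq_pair] at h
    | not ψ =>
      simp only [Fml.code, Nat.pair_eq_pair, true_and] at h
      rw [ih _ h]
    | and ψ ψ' => simp [Fml.code, Nat.pair_eq_pair] at h
  | and φ φ' ih ih' =>
    cases ψ with
    | eq s' t' => simp [Fml.code, Nat.pair_eq_pair] at h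
    | gt s' t' => simp [Fml.code, Nat.pair_eq_pair] at h
    | not ψ => simp [Fml.code, Nat.pair_eq_pair] at h
    | and ψ ψ' =>
      simp only [Fml.code, Nat.pair_eq_pair, true_and] at h
      rw [ih _ h.1, ih' _ h.2]

/-- `x_0 = n and φ` -/
def inst (φ : Fml F3 ℕ) (n : ℕ) : Fml F3 ℕ := .and (.eq (.var 0) (numT n)) φ

theorem primrec_inst (φ : Fml F3 ℕ) : Primrec (fun n => (inst φ n).code) := by
  have : (fun n => (inst φ n).code) = fun n => Nat.pair 3 (Nat.pair (Nat.pair 0
      (Nat.pair (Nat.pair 0 0) (numT n : Trm F3 ℕ).code)) φ.code) := rfl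
  rw [this]
  exact Primrec₂.natPair.comp (Primrec.const _) (Primrec₂.natPair.comp (Primrec₂.natPair.comp
    (Primrec.const _) (Primrec₂.natPair.comp (Primrec.const _) primrec_numT)) (Primrec.const _))

theorem exists_formula {p : ℕ → Prop} (hp : REPred p) : ∃ φ : Fml F3 ℕ, ∀ n,
    (∃ x : ℕ → Tm F3, (inst φ n).Holds noPrec st x) ↔ p n := by
  obtain ⟨S', hE, hS'⟩ := (pc st).re hp
  obtain ⟨φ, hφ⟩ := E.ren (fun _ => 0) hE
  set S : (ℕ → W) → Prop := fun v => S' (fun _ => v 0) with hSdef
  let e : ℕ ⊕ ℕ → ℕ := Sum.elim (fun n => 2 * n) (fun n => 2 * n + 1)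
  refine ⟨φ.map e, fun n => ?_⟩
  have key : (∃ x : ℕ → Tm F3, (inst (φ.map e) n).Holds noPrec st x) ↔
      ∃ v : ℕ → W, v 0 = num n ∧ S v := by
    constructor
    · rintro ⟨x, h1, h2⟩
      choose x' hx' using fun i => toTm_surjective (x i)
      refine ⟨fun i => x' (2 * i), ?_, ?_⟩
      · apply toTm_injective
        show toTm (x' (2 * 0)) = _
        rw [hx', ← eval_numT (V := ℕ) n x]
        exact h1
      · refine (hφ (fun i => x' (2 * i))).2 ⟨fun i => x' (2 * i + 1), ?_⟩
        rw [Fml.holds_map] at h2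
        convert h2 using 2 with s
        rcases s with s | s
        · exact hx' _
        · exact hx' _
    · rintro ⟨v, hv, hSv⟩
      obtain ⟨y, hy⟩ := (hφ v).1 hSv
      refine ⟨fun n => if n % 2 = 0 then toTm (v (n / 2)) else toTm (y (n / 2)), ?_, ?_⟩
      · show toTm (v (0 / 2)) = _
        rw [eval_numT, Nat.zero_div, hv]
      · rw [Fml.holds_map]
        convert hy using 2 with s
        rcases s with s | s
        · show (if (2 * s) % 2 = 0 then toTm (v (2 * s / 2)) else toTm (y (2 * s / 2))) = _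
          rw [if_pos (by omega), show 2 * s / 2 = s by omega]
          rfl
        · show (if (2 * s + 1) % 2 = 0 then toTm (v ((2 * s + 1) / 2))
            else toTm (y ((2 * s + 1) / 2))) = _
          rw [if_neg (by omega), show (2 * s + 1) / 2 = s by omega]
          rfl
  rw [key]
  have hS0 : ∀ v : ℕ → W, v 0 = num n → (S v ↔ p n) := by
    intro v hv
    rw [hSdef]
    simp only
    rw [hv]
    exact hS' (fun _ => n)
  constructor
  · rintro ⟨v, hv, hSv⟩
    exact (hS0 v hv).1 hSv
  · intro hpn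
    exact ⟨fun _ => num n, rfl, (hS0 (fun _ => num n) rfl).2 hpn⟩

theorem not_computable : ¬ ComputablePred (ExTheory noPrec st) := by
  intro hc
  obtain ⟨φ, hφ⟩ := exists_formula st halt_re
  apply halt_not_computable
  refine ComputablePred.computable_of_manyOneReducible (q := ExTheory noPrec st)
    ⟨fun n => (inst φ n).code, (primrec_inst φ).to_comp, fun n => ?_⟩ hc
  rw [← hφ n]
  constructor
  · intro h
    exact ⟨_, rfl, h⟩
  · rintro ⟨ψ, hψ, h⟩
    rw [← Fml.code_injective _ _ hψ]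
    exact h

end Pool.Agent.V11234.RPO
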